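import Pool.Agent.NH7.FT.Defs

/-!
# B2: a large multiple of a place minus a small divisor is generated by two elements
-/

set_option autoImplicit false
set_option linter.all false

namespace Pool.Agent.NH7.FT

open Pool.Agent.H525R3.FFp Module
open FF (Place IsFF)

/-- an element of the Riemann-Roch space which leaves it when the multiplicity of `v` is lowered -/
theorem ord_eq_of_notMem {k K : Type} [Field k] [Field K] [Algebra k K] [PerfectField k]
    [IsFF k K] {D : Place k K →₀ ℤ} {v : Place k K} {f : K} (h1 : f ∈ LL D)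
    (h2 : f ∉ LL (D - Finsupp.single v 1)) : f ≠ 0 ∧ v.ord f = - D v := by
  classical
  have hf0 : f ≠ 0 := by
    rintro rfl
    exact h2 (Submodule.zero_mem _)
  refine ⟨hf0, ?_⟩
  have h1' := (mem_LL.1 h1).resolve_left hf0
  rw [mem_LL] at h2
  push Not at h2
  obtain ⟨-, P, hP⟩ := h2
  have h3 := h1' P
  rw [Finsupp.sub_apply] at hP
  by_cases hPv : P = v
  · subst hPv
    rw [Finsupp.single_eq_same] at hP
    omega
  · rw [Finsupp.single_eq_of_ne hPv] at hP
    omega

/-- over an algebraically closed field all the places have degree one -/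
theorem deg_eq_one_of_algClosed {k K : Type} [Field k] [CharZero k] [IsAlgClosed k] [Field K]
    [Algebra k K] [IsFF k K] (v : Place k K) : v.deg = 1 := by
  have hb : Function.Bijective (algebraMap k v.RF) :=
    IsAlgClosed.algebraMap_bijective_of_isIntegral
  have e : k ≃ₗ[k] v.RF := LinearEquiv.ofBijective (Algebra.linearMap k v.RF) hb
  unfold Place.deg
  rw [← e.finrank_eq, finrank_self]

theorem s_ab : S_ab := by
  classical
  intro k K _ _ _ _ _ _ w r₀
  obtain ⟨γ, NR, -, hR⟩ := riemann k K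
  refine ⟨r₀ + NR.natAbs + 3, ?_⟩
  intro N hN E hE hEw hEd
  have hone : ∀ v : Place k K, ddeg (Finsupp.single v (1 : ℤ)) = 1 := by
    intro v
    rw [ddeg_single, deg_eq_one_of_algClosed v]
    norm_num
  obtain ⟨D, hD⟩ : ∃ D : Place k K →₀ ℤ, D = Finsupp.single w (N : ℤ) - E := ⟨_, rfl⟩
  have hDw : D w = N := by
    rw [hD, Finsupp.sub_apply, Finsupp.single_eq_same, hEw, sub_zero]
  have hDv : ∀ v, v ≠ w → D v = - E v := by
    intro v hv
    rw [hD, Finsupp.sub_apply, Finsupp.single_eq_of_ne hv, zero_sub]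
  have hDd : NR + 1 ≤ ddeg D := by
    rw [hD, ddeg_sub, ddeg_single, deg_eq_one_of_algClosed w]
    push_cast
    omega
  have hdrop : ∀ v : Place k K, ∃ f ∈ LL D, f ∉ LL (D - Finsupp.single v 1) := by
    intro v
    by_contra hc
    push Not at hc
    have h1 : LL D ≤ LL (D - Finsupp.single v 1) := hc
    have h2 := Submodule.finrank_mono h1
    have h3 := hR D (by omega)
    have h4 := hR (D - Finsupp.single v 1) (by rw [ddeg_sub, hone]; omega)
    rw [ddeg_sub, hone] at h4
    unfold ell at h3 h4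
    omega
  obtain ⟨a, ha, ha'⟩ := hdrop w
  obtain ⟨ha0, haw⟩ := ord_eq_of_notMem ha ha'
  have hT : {v : Place k K | v.ord a ≠ 0 ∨ E v ≠ 0}.Finite := by
    refine ((finite_support a).union E.support.finite_toSet).subset ?_
    rintro v (hv | hv)
    · exact Or.inl hv
    · exact Or.inr (Finset.mem_coe.2 (Finsupp.mem_support_iff.2 hv))
  obtain ⟨T, hTm⟩ : ∃ T : Finset (Place k K), ∀ v, v ∈ T ↔ (v.ord a ≠ 0 ∨ E v ≠ 0) :=
    ⟨hT.toFinset, fun v => by rw [Set.Finite.mem_toFinset]; rfl⟩
  obtain ⟨s, hs⟩ : ∃ s : Finset (Subspace k (LL D)),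
      s = (insert w T).image fun v => (LL (D - Finsupp.single v 1)).comap (LL D).subtype :=
    ⟨_, rfl⟩
  have hstop : (⊤ : Subspace k (LL D)) ∉ s := by
    rw [hs, Finset.mem_image]
    rintro ⟨v, -, hv⟩
    obtain ⟨f, hf, hf'⟩ := hdrop v
    have h1 : (⟨f, hf⟩ : LL D) ∈ (LL (D - Finsupp.single v 1)).comap (LL D).subtype := by
      rw [hv]
      exact Submodule.mem_top
    exact hf' h1
  have hinf : Infinite k := IsAlgClosed.instInfinite
  have hne := Subspace.biUnion_ne_univ_of_top_notMem hstop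
  obtain ⟨b, hb⟩ := (Set.ne_univ_iff_exists_notMem _).1 hne
  have hb' : ∀ v ∈ insert w T, (b : K) ∉ LL (D - Finsupp.single v 1) := by
    intro v hv hmem
    apply hb
    rw [Set.mem_iUnion₂]
    refine ⟨(LL (D - Finsupp.single v 1)).comap (LL D).subtype, ?_, hmem⟩
    rw [hs]
    exact Finset.mem_image_of_mem _ hv
  obtain ⟨hb0, hbw⟩ := ord_eq_of_notMem b.2 (hb' w (Finset.mem_insert_self _ _))
  refine ⟨a, b, ha0, hb0, ?_, ?_, ?_⟩
  · rw [haw, hDw]
  · rw [hbw, hDw]
  · intro v hv
    have h1 := (mem_LL.1 ha).resolve_left ha0 v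
    have h2 := (mem_LL.1 b.2).resolve_left hb0 v
    rw [hDv v hv, neg_neg] at h1 h2
    by_cases hvT : v ∈ T
    · obtain ⟨-, h3⟩ := ord_eq_of_notMem b.2 (hb' v (Finset.mem_insert_of_mem hvT))
      rw [hDv v hv, neg_neg] at h3
      rw [h3]
      exact min_eq_right h1
    · rw [hTm] at hvT
      push Not at hvT
      rw [min_eq_left]
      · omega
      · rw [hvT.1]
        rw [hvT.2] at h2
        exact h2

end Pool.Agent.NH7.FT
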