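import Pool.Agent.NH7.FT.Defs

/-!
# The compositum is a function field over an algebraically closed field
-/

set_option autoImplicit false
set_option linter.unusedSectionVars false

namespace Pool.Agent.NH7.FT

open FF (Place IsFF)

namespace AclP

variable (k K : Type) [Field k] [Field K] [Algebra k K]

theorem acl : IsAlgClosed (kb k K) :=
  IsAlgClosure.isAlgClosed k (K := algebraicClosure k (AlgebraicClosure K))

theorem mem_adj (s : Set K) (hs : IntermediateField.adjoin k s = ⊤) (x : K) :
    algebraMap K (AlgebraicClosure K) x ∈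
      IntermediateField.adjoin (kb k K) (algebraMap K (AlgebraicClosure K) '' s) := by
  have hx : x ∈ IntermediateField.adjoin k s := by rw [hs]; trivial
  induction hx using IntermediateField.adjoin_induction with
  | mem x hx => exact IntermediateField.subset_adjoin _ _ ⟨x, hx, rfl⟩
  | algebraMap c =>
    rw [← IsScalarTower.algebraMap_apply k K (AlgebraicClosure K),
      IsScalarTower.algebraMap_apply k (kb k K) (AlgebraicClosure K)]
    exact IntermediateField.algebraMap_mem _ _
  | add x y _ _ hx hy => rw [map_add]; exact add_mem hx hy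
  | inv x _ hx => rw [map_inv₀]; exact inv_mem hx
  | mul x y _ _ hx hy => rw [map_mul]; exact mul_mem hx hy

theorem ess [Algebra.EssFiniteType k K] : Algebra.EssFiniteType (kb k K) (Kb k K) := by
  classical
  obtain ⟨s, hs⟩ := IntermediateField.fg_top k K
  rw [IntermediateField.essFiniteType_iff]
  refine ⟨s.image (algebraMap K (AlgebraicClosure K)), ?_⟩
  rw [Finset.coe_image]
  apply le_antisymm
  · exact IntermediateField.adjoin.mono _ _ _ (Set.image_subset_range _ _)
  · rw [IntermediateField.adjoin_le_iff]
    rintro _ ⟨x, rfl⟩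
    exact mem_adj k K (s : Set K) hs x

theorem algTop : Algebra.IsAlgebraic (Kb k K) (AlgebraicClosure K) := by
  let _ : Algebra K (Kb k K) := (incl k K).toAlgebra
  have : IsScalarTower K (Kb k K) (AlgebraicClosure K) := IsScalarTower.of_algebraMap_eq fun _ => rfl
  exact Algebra.IsAlgebraic.tower_top (K := K) (Kb k K)

theorem trd (h : Algebra.trdeg k K = 1) : Algebra.trdeg (kb k K) (Kb k K) = 1 := by
  have h1 := _root_.trdeg_add_eq k K (A := AlgebraicClosure K)
  rw [h, _root_.trdeg_eq_zero (R := K) (A := AlgebraicClosure K), add_zero] at h1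
  have h2 := _root_.trdeg_add_eq k (kb k K) (A := AlgebraicClosure K)
  rw [_root_.trdeg_eq_zero (R := k) (A := kb k K), zero_add, ← h1] at h2
  have i1 : FaithfulSMul (kb k K) (Kb k K) :=
    (faithfulSMul_iff_algebraMap_injective _ _).2 (algebraMap (kb k K) (Kb k K)).injective
  have i2 : FaithfulSMul (Kb k K) (AlgebraicClosure K) :=
    (faithfulSMul_iff_algebraMap_injective _ _).2 (algebraMap (Kb k K) (AlgebraicClosure K)).injective
  have i3 : IsScalarTower (kb k K) (Kb k K) (AlgebraicClosure K) :=
    IsScalarTower.of_algebraMap_eq fun _ => rfl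
  have h3 := _root_.trdeg_add_eq (kb k K) (Kb k K) (A := AlgebraicClosure K)
  have := algTop k K
  rw [_root_.trdeg_eq_zero (R := Kb k K) (A := AlgebraicClosure K), add_zero] at h3
  rw [h3, h2]

end AclP

theorem s_acl : S_acl := by
  intro k K _ _ _ _ hFF
  have := hFF.ess
  exact ⟨AclP.acl k K, ⟨AclP.ess k K, AclP.trd k K hFF.trdeg⟩⟩

end Pool.Agent.NH7.FT
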