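import Pool.Agent.NH7.FT.Defs

/-!
# FT7-B3: coprime elements
-/

set_option autoImplicit false
set_option linter.unusedSectionVars false

namespace Pool.Agent.NH7.FT

open Pool.Agent.H525R3.FFp Filter
open FF (Place IsFF)

/-- elements of a divisor space translated by a divisor, divided -/
lemma bez_div {k K : Type} [Field k] [CharZero k] [Field K] [Algebra k K] [IsFF k K]
    (D : Place k K →₀ ℤ) {c x : K} (hc : c ≠ 0) (hx : x ∈ LL (D + divisor k c⁻¹)) :
    x / c ∈ LL D := by
  by_cases hx0 : x = 0
  · rw [hx0, zero_div]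
    exact Submodule.zero_mem _
  · rw [mem_LL]
    right
    intro P
    have h1 := (hx.resolve_left hx0) P
    rw [Finsupp.add_apply, divisor_apply, P.ord_inv] at h1
    rw [P.ord_div hx0 hc]
    omega

theorem s_bez : S_bez := by
  classical
  intro k K _ _ _ _ _ _ w
  obtain ⟨γ, N, -, hN⟩ := riemann k K
  have hδ : (1 : ℤ) ≤ w.deg := by exact_mod_cast deg_pos w
  refine ⟨N.natAbs, ?_⟩
  intro c c' n n' hc hc' hmin hn hn'
  have hBN : N ≤ (N.natAbs : ℤ) := Int.le_natAbs
  have hB0 : (0 : ℤ) ≤ (N.natAbs : ℤ) := Int.natCast_nonneg _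
  generalize hB : (N.natAbs : ℤ) = B at hBN hB0 ⊢
  have hn0 : (0 : ℤ) ≤ n := Int.natCast_nonneg _
  have hn0' : (0 : ℤ) ≤ n' := Int.natCast_nonneg _
  -- the divisors
  let D : Place k K →₀ ℤ := Finsupp.single w ((n : ℤ) + n' + B)
  let D1 : Place k K →₀ ℤ := Finsupp.single w ((n' : ℤ) + B) + divisor k c⁻¹
  let D2 : Place k K →₀ ℤ := Finsupp.single w ((n : ℤ) + B) + divisor k c'⁻¹
  let D0 : Place k K →₀ ℤ := Finsupp.single w B + divisor k (c * c')⁻¹
  have hD : ∀ v, D v = if v = w then (n : ℤ) + n' + B else 0 := by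
    intro v
    simp only [D]
    rw [Finsupp.single_apply]
    simp only [eq_comm]
  have hD1 : ∀ v, D1 v = if v = w then (n : ℤ) + n' + B else - v.ord c := by
    intro v
    simp only [D1]
    rw [Finsupp.add_apply, divisor_apply, v.ord_inv, Finsupp.single_apply]
    by_cases h : v = w
    · subst h
      rw [if_pos rfl, if_pos rfl, hn]
      ring
    · rw [if_neg h, if_neg (fun h' => h h'.symm), zero_add]
  have hD2 : ∀ v, D2 v = if v = w then (n : ℤ) + n' + B else - v.ord c' := by
    intro v
    simp only [D2]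
    rw [Finsupp.add_apply, divisor_apply, v.ord_inv, Finsupp.single_apply]
    by_cases h : v = w
    · subst h
      rw [if_pos rfl, if_pos rfl, hn']
      ring
    · rw [if_neg h, if_neg (fun h' => h h'.symm), zero_add]
  have hD0 : ∀ v, D0 v = if v = w then (n : ℤ) + n' + B else - (v.ord c + v.ord c') := by
    intro v
    simp only [D0]
    rw [Finsupp.add_apply, divisor_apply, v.ord_inv, v.ord_mul hc hc', Finsupp.single_apply]
    by_cases h : v = w
    · subst h
      rw [if_pos rfl, if_pos rfl, hn, hn']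
      ring
    · rw [if_neg h, if_neg (fun h' => h h'.symm), zero_add]
  have hle1 : D1 ≤ D := by
    intro v
    rw [hD1, hD]
    by_cases h : v = w
    · rw [if_pos h, if_pos h]
    · rw [if_neg h, if_neg h]
      have := hmin v h
      omega
  have hle2 : D2 ≤ D := by
    intro v
    rw [hD2, hD]
    by_cases h : v = w
    · rw [if_pos h, if_pos h]
    · rw [if_neg h, if_neg h]
      have := hmin v h
      omega
  have hinf : LL D1 ⊓ LL D2 ≤ LL D0 := by
    intro x hx
    by_cases hx0 : x = 0
    · rw [hx0]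
      exact Submodule.zero_mem _
    · rw [mem_LL]
      right
      intro v
      have h1 := (hx.1.resolve_left hx0) v
      have h2 := (hx.2.resolve_left hx0) v
      rw [hD1] at h1
      rw [hD2] at h2
      rw [hD0]
      by_cases h : v = w
      · rw [if_pos h] at h1 ⊢
        exact h1
      · rw [if_neg h] at h1 h2 ⊢
        have := hmin v h
        omega
  -- the dimensions
  have e : ∀ M : ℤ, B ≤ M → ell (Finsupp.single w M) = M * w.deg - γ := by
    intro M hM
    have h1 := hN (Finsupp.single w M) (by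
      rw [ddeg_single]
      have : M * 1 ≤ M * (w.deg : ℤ) := mul_le_mul_of_nonneg_left hδ (by omega)
      omega)
    rw [h1, ddeg_single]
  have e1 : ell D1 = ((n' : ℤ) + B) * w.deg - γ := by
    rw [ell_add_divisor _ (inv_ne_zero hc)]
    exact e _ (by omega)
  have e2 : ell D2 = ((n : ℤ) + B) * w.deg - γ := by
    rw [ell_add_divisor _ (inv_ne_zero hc')]
    exact e _ (by omega)
  have e0 : ell D0 = B * w.deg - γ := by
    rw [ell_add_divisor _ (inv_ne_zero (mul_ne_zero hc hc'))]
    exact e _ le_rfl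
  have eD : ell D = ((n : ℤ) + n' + B) * w.deg - γ := e _ (by omega)
  have hsup : LL D1 ⊔ LL D2 = LL D := by
    apply Submodule.eq_of_le_of_finrank_le (sup_le (LL_mono hle1) (LL_mono hle2))
    have h1 := Submodule.finrank_sup_add_finrank_inf_eq (LL D1) (LL D2)
    have h2 := Submodule.finrank_mono hinf
    unfold ell at e1 e2 e0 eD
    have h3 : ((n : ℤ) + n' + B) * w.deg - γ + (B * w.deg - γ) =
      (((n' : ℤ) + B) * w.deg - γ) + (((n : ℤ) + B) * w.deg - γ) := by ring
    omega
  have hone : (1 : K) ∈ LL D := by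
    rw [mem_LL]
    right
    intro v
    rw [hD, v.ord_one]
    split_ifs <;> omega
  rw [← hsup, Submodule.mem_sup] at hone
  obtain ⟨x, hx, y, hy, hxy⟩ := hone
  refine ⟨x / c, ?_, y / c', ?_, ?_⟩
  · refine LL_mono ?_ (bez_div _ hc hx)
    intro v
    rw [Finsupp.single_apply, Finsupp.single_apply]
    split_ifs <;> omega
  · refine LL_mono ?_ (bez_div _ hc' hy)
    intro v
    rw [Finsupp.single_apply, Finsupp.single_apply]
    split_ifs <;> omega
  · rw [div_mul_cancel₀ _ hc, div_mul_cancel₀ _ hc', hxy]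

end Pool.Agent.NH7.FT
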