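import Pool.Agent.NH7.GH.Defs
import Pool.Agent.H525R3.FFp.Riemann

/-!
# The classes of order `p` of a function field of characteristic zero: definitions and statements

Every `def S_... : Prop` is proved in a file of its own, as a theorem `s_... : S_...`.
-/

set_option autoImplicit false
set_option linter.unusedSectionVars false

namespace Pool.Agent.NH7.FT

open Pool.Agent.H525R3.FFp Filter
open FF (Place IsFF)
open Pool.Agent.NH7.GH (PicF)
open scoped TensorProduct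

section defs

variable {k K : Type} [Field k] [Field K] [Algebra k K]

/-- the functions with poles at most at `w`, of order at most `M` -/
noncomputable abbrev V (w : Place k K) (M : ℤ) : Submodule k K := LL (Finsupp.single w M)

/-- the functions which are regular away from `w` -/
def Rw (w : Place k K) : Subalgebra k K where
  carrier := {x | ∀ v, v ≠ w → 0 ≤ v.ord x}
  mul_mem' := by
    intro x y hx hy v hv
    by_cases hx0 : x = 0
    · rw [hx0, zero_mul, v.ord_zero]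
    by_cases hy0 : y = 0
    · rw [hy0, mul_zero, v.ord_zero]
    rw [v.ord_mul hx0 hy0]
    exact add_nonneg (hx v hv) (hy v hv)
  add_mem' := by
    intro x y hx hy v hv
    by_cases hx0 : x = 0
    · rw [hx0, zero_add]
      exact hy v hv
    by_cases hy0 : y = 0
    · rw [hy0, add_zero]
      exact hx v hv
    by_cases hxy : x + y = 0
    · rw [hxy, v.ord_zero]
    · exact le_trans (le_min (hx v hv) (hy v hv)) (v.ord_add hx0 hy0 hxy)
  algebraMap_mem' := by
    intro c v _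
    by_cases hc : c = 0
    · rw [hc, map_zero, v.ord_zero]
    · exact (v.ord_const hc).ge

/-- the data which describe a class of order `p` -/
structure IsDat (w : Place k K) (p : ℕ) (M N : ℤ) (f a b c0 c1 c2 c3 d0 d1 : K) : Prop where
  f_mem : f ∈ V w M
  a_mem : a ∈ V w M
  b_mem : b ∈ V w M
  c0_mem : c0 ∈ V w M
  c1_mem : c1 ∈ V w M
  c2_mem : c2 ∈ V w M
  c3_mem : c3 ∈ V w M
  d0_mem : d0 ∈ V w M
  d1_mem : d1 ∈ V w M
  a_ne : a ≠ 0
  b_ne : b ≠ 0
  e0 : f * c0 = b ^ p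
  e1 : f * c1 = a * b ^ (p - 1)
  e2 : f * c2 = a ^ (p - 1) * b
  e3 : f * c3 = a ^ p
  bez : d0 * c0 + d1 * c3 = 1
  ord_a : w.ord a = -N
  ord_b : w.ord b = -N
  lin : ∀ u ∈ V w (N - 1), ∀ u' ∈ V w (N - 1), u * b = u' * a → u = 0

/-- such data exist -/
def Has (w : Place k K) (p : ℕ) (M N : ℤ) (f : K) : Prop :=
  ∃ a b c0 c1 c2 c3 d0 d1 : K, IsDat w p M N f a b c0 c1 c2 c3 d0 d1

end defs

/-! ### A. Finiteness -/

/-- A1. Derivations. -/
def S_derx : Prop := ∀ (k L : Type) [Field k] [CharZero k] [Field L] [Algebra k L] (x : L),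
  Transcendental k x → ∃ δ : Derivation k L L, δ x ≠ 0

/-- A2. Ultraproducts. -/
def S_grm : Prop := ∀ (k K : Type) [Field k] [Field K] [Algebra k K] (R : Subalgebra k K),
  ∃ (k₁ F : Type) (_ : Field k₁) (_ : Field F) (_ : Algebra k k₁) (𝒰 : Ultrafilter ℕ)
    (μ : k₁ ⊗[k] R →+* F) (G : (ℕ → K) →+* F),
    Function.Injective μ ∧ (∀ n : ℕ, {n} ∉ 𝒰) ∧
    (∀ x y, G x = G y ↔ ∀ᶠ n in (𝒰 : Filter ℕ), x n = y n) ∧
    (∀ r : R, μ (1 ⊗ₜ[k] r) = G fun _ => (r : K)) ∧
    (∀ W : Submodule k R, FiniteDimensional k W → ∀ x : ℕ → R, (∀ n, x n ∈ W) →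
      ∃ u ∈ W.baseChange k₁, μ u = G fun n => (x n : K)) ∧
    ∀ W : Submodule k R, ∀ u ∈ W.baseChange k₁, ∃ x : ℕ → R, (∀ n, x n ∈ W) ∧
      μ u = G fun n => (x n : K)

/-- A3. Finiteness for the data. -/
def S_ultra : Prop := ∀ (k K : Type) [Field k] [CharZero k] [IsAlgClosed k] [Field K] [Algebra k K]
  [IsFF k K] (w : Place k K) (p : ℕ), 2 ≤ p → ∀ (M N q : ℤ) (g : K), g ≠ 0 → g ∈ V w q →
    w.ord g = -q →
    {f : K | Has w p M N f ∧ w.ord f = -q ∧ f - g ∈ V w (q - 1)}.Finite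

/-! ### B. Riemann's theorem -/

/-- B1. The minimal pole order. -/
def S_min : Prop := ∀ (k K : Type) [Field k] [CharZero k] [IsAlgClosed k] [Field K] [Algebra k K]
  [IsFF k K] (w : Place k K) (p : ℕ), 1 ≤ p → ∃ r₀ : ℕ, ∀ κ : Kˣ,
    (∀ v : Place k K, (p : ℤ) ∣ v.ord (κ : K)) →
    ∃ (β : Kˣ) (E : Place k K →₀ ℤ) (r : ℕ), r ≤ r₀ ∧ 0 ≤ E ∧ E w = 0 ∧ ddeg E = r ∧
      (∀ v : Place k K, v.ord ((κ : K) * (β : K) ^ p) = p * (E v - Finsupp.single w (r : ℤ) v)) ∧
      LL (E - Finsupp.single w 1) = ⊥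

/-- B2. Two generators. -/
def S_ab : Prop := ∀ (k K : Type) [Field k] [CharZero k] [IsAlgClosed k] [Field K] [Algebra k K]
  [IsFF k K] (w : Place k K) (r₀ : ℕ), ∃ N₀ : ℕ, ∀ N : ℕ, N₀ ≤ N → ∀ E : Place k K →₀ ℤ, 0 ≤ E →
    E w = 0 → ddeg E ≤ r₀ → ∃ a b : K, a ≠ 0 ∧ b ≠ 0 ∧ w.ord a = -N ∧ w.ord b = -N ∧
      ∀ v, v ≠ w → min (v.ord a) (v.ord b) = E v

/-- B3. Coprime elements. -/
def S_bez : Prop := ∀ (k K : Type) [Field k] [CharZero k] [IsAlgClosed k] [Field K] [Algebra k K]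
  [IsFF k K] (w : Place k K), ∃ B : ℕ, ∀ (c c' : K) (n n' : ℕ), c ≠ 0 → c' ≠ 0 →
    (∀ v, v ≠ w → min (v.ord c) (v.ord c') = 0) → w.ord c = -n → w.ord c' = -n' →
    ∃ d ∈ V w (n + n' + B), ∃ d' ∈ V w (n + n' + B), d * c + d' * c' = 1

/-- B4. The linear condition. -/
def S_lin : Prop := ∀ (k K : Type) [Field k] [CharZero k] [IsAlgClosed k] [Field K] [Algebra k K]
  [IsFF k K] (w : Place k K) (N : ℤ) (E : Place k K →₀ ℤ) (a b : K), a ≠ 0 → b ≠ 0 →
    w.ord a = -N → w.ord b = -N → (∀ v, v ≠ w → min (v.ord a) (v.ord b) = E v) → E w = 0 →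
    LL (E - Finsupp.single w 1) = ⊥ →
      ∀ u ∈ V w (N - 1), ∀ u' ∈ V w (N - 1), u * b = u' * a → u = 0

/-- B5. Every class of order `p` is described by data. -/
def S_rep : Prop := ∀ (k K : Type) [Field k] [CharZero k] [IsAlgClosed k] [Field K] [Algebra k K]
  [IsFF k K] (w : Place k K) (p : ℕ), 2 ≤ p → ∃ M N Q : ℤ, ∀ κ : Kˣ,
    (∀ v : Place k K, (p : ℤ) ∣ v.ord (κ : K)) → ∃ β : Kˣ, Has w p M N ((κ : K) * (β : K) ^ p) ∧
      -Q ≤ w.ord ((κ : K) * (β : K) ^ p) ∧ w.ord ((κ : K) * (β : K) ^ p) ≤ 0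

/-- B6. Finiteness over algebraically closed fields. -/
def S_picA : Prop := ∀ (k K : Type) [Field k] [CharZero k] [IsAlgClosed k] [Field K] [Algebra k K]
  [IsFF k K] (p : ℕ) [Fact p.Prime], PicF k K p

/-! ### C. Descent -/

section desc

variable (k K : Type) [Field k] [Field K] [Algebra k K]

/-- the algebraic closure of `k` in the algebraic closure of `K` -/
abbrev kb : Type := algebraicClosure k (AlgebraicClosure K)

/-- the compositum of `K` and the algebraic closure of `k` -/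
abbrev Kb : Type := IntermediateField.adjoin (kb k K)
  (Set.range (algebraMap K (AlgebraicClosure K)))

/-- the inclusion -/
noncomputable def incl : K →+* Kb k K :=
  (algebraMap K (AlgebraicClosure K)).codRestrict _ fun x =>
    IntermediateField.subset_adjoin (kb k K) _ ⟨x, rfl⟩

end desc

/-- C1. The compositum is a function field over an algebraically closed field. -/
def S_acl : Prop := ∀ (k K : Type) [Field k] [CharZero k] [Field K] [Algebra k K] [IsFF k K],
  IsAlgClosed (kb k K) ∧ IsFF (kb k K) (Kb k K)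

/-- C2. The places of the compositum. -/
def S_res : Prop := ∀ (k K : Type) [Field k] [CharZero k] [Field K] [Algebra k K] [IsFF k K]
  (v' : Place (kb k K) (Kb k K)), ∃ (v : Place k K) (e : ℤ), 0 < e ∧
    ∀ x : K, v'.ord (incl k K x) = e * v.ord x

/-- C3. Kummer theory for the constants. -/
def S_kum : Prop := ∀ (k K : Type) [Field k] [CharZero k] [Field K] [Algebra k K] [IsFF k K]
  (p : ℕ) [Fact p.Prime] (ζ : K), IsPrimitiveRoot ζ p → ∀ (κ : Kˣ) (β : Kb k K),
    incl k K κ = β ^ p → ∃ γ : Kˣ, ∀ v : Place k K, v.ord (κ : K) = p * v.ord (γ : K)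

/-- C4. Finiteness. -/
def S_picB : Prop := ∀ (k K : Type) [Field k] [CharZero k] [Field K] [Algebra k K] [IsFF k K]
  (p : ℕ) [Fact p.Prime] (ζ : K), IsPrimitiveRoot ζ p → PicF k K p

end Pool.Agent.NH7.FT
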