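import Mathlib
import Pool.Agent.NH7.FT.Defs

/-!
# A1: derivations
-/

set_option autoImplicit false

namespace Pool.Agent.NH7.FT

namespace DerxP

open Polynomial TensorProduct KaehlerDifferential

/-- a field extension in characteristic zero is formally smooth -/
theorem smooth0 (F L : Type) [Field F] [CharZero F] [Field L] [Algebra F L] :
    Algebra.FormallySmooth F L := by
  obtain ⟨ι, v, hv⟩ := exists_isTranscendenceBasis' F L
  have h1 : Algebra.IsAlgebraic (IntermediateField.adjoin F (Set.range v)) L :=
    hv.isAlgebraic_field
  have h2 : Algebra.IsSeparable (IntermediateField.adjoin F (Set.range v)) L := inferInstance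
  exact Algebra.FormallySmooth.of_algebraicIndependent_of_isSeparable hv.1

theorem derx (k L : Type) [Field k] [CharZero k] [Field L] [Algebra k L] (x : L)
    (hx : Transcendental k x) : ∃ δ : Derivation k L L, δ x ≠ 0 := by
  let alg : Algebra k[X] L := (aeval x).toRingHom.toAlgebra
  have hmap : ∀ p : k[X], algebraMap k[X] L p = aeval x p := fun p => rfl
  have hst : IsScalarTower k k[X] L := IsScalarTower.of_algebraMap_eq fun c => by
    rw [hmap, ← Polynomial.C_eq_algebraMap, aeval_C]
  have hinj : Function.Injective (algebraMap k[X] L) :=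
    transcendental_iff_injective.1 hx
  have hf : FaithfulSMul k[X] L := (faithfulSMul_iff_algebraMap_injective _ _).2 hinj
  let alg2 : Algebra (FractionRing k[X]) L := FractionRing.liftAlgebra k[X] L
  have hst2 : IsScalarTower k[X] (FractionRing k[X]) L := FractionRing.isScalarTower_liftAlgebra k[X] L
  have hs1 : Algebra.FormallySmooth k[X] (FractionRing k[X]) :=
    .of_isLocalization (nonZeroDivisors _)
  have hc : CharZero (FractionRing k[X]) :=
    charZero_of_injective_algebraMap (IsFractionRing.injective k[X] (FractionRing k[X]))
  have hs2 : Algebra.FormallySmooth (FractionRing k[X]) L := smooth0 _ _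
  have hs : Algebra.FormallySmooth k[X] L := .comp _ (FractionRing k[X]) _
  have hH : Subsingleton (Algebra.H1Cotangent k[X] L) := Algebra.FormallySmooth.subsingleton_h1Cotangent
  have hinj2 : Function.Injective (mapBaseChange k k[X] L) := by
    rw [injective_iff_map_eq_zero]
    intro y hy
    obtain ⟨z, rfl⟩ := (Algebra.H1Cotangent.exact_δ_mapBaseChange k k[X] L y).mp hy
    rw [Subsingleton.elim z 0, map_zero]
  have hne : (1 : L) ⊗ₜ[k[X]] D k k[X] X ≠ 0 := by
    intro h0
    have h1 := congrArg ((TensorProduct.rid k[X] L).toLinearMap ∘ₗ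
      LinearMap.lTensor L (polynomialEquiv k).toLinearMap) h0
    simp at h1
  have hD : D k L x ≠ 0 := by
    intro h0
    apply hne
    apply hinj2
    rw [map_zero, mapBaseChange_tmul, one_smul, map_D, hmap, aeval_X]
    exact h0
  by_contra hcon
  push Not at hcon
  apply hD
  rw [← Module.forall_dual_apply_eq_zero_iff L]
  intro φ
  exact hcon (φ.compDer (D k L))

end DerxP

/-- A1 -/
theorem s_derx : S_derx := fun k L _ _ _ _ x hx => DerxP.derx k L x hx

end Pool.Agent.NH7.FT
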