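import Mathlib

/-!
Project FT: a field finitely generated over `ℚ` is finite over `ℚ` or over a rational function field
(helper95).
-/

set_option autoImplicit false
set_option linter.all false

open IntermediateField

namespace Pool.Agent.NH7.FT

theorem fgp_fin (F E : Type) [Field F] [Field E] [Algebra F E] [Algebra.EssFiniteType F E]
    [Algebra.IsAlgebraic F E] : FiniteDimensional F E := by
  obtain ⟨S, hS⟩ := IntermediateField.fg_top F E
  have h1 : FiniteDimensional F (adjoin F (S : Set E)) :=
    IntermediateField.finiteDimensional_adjoin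
      (fun x _ => (Algebra.IsAlgebraic.isAlgebraic x).isIntegral)
  rw [hS] at h1
  exact (IntermediateField.topEquiv (F := F) (E := E)).toLinearEquiv.finiteDimensional

theorem fgp_base (k : Type) [Field k] [CharZero k] [Algebra.EssFiniteType ℚ k] :
    FiniteDimensional ℚ k ∨ ∃ (F₀ : IntermediateField ℚ k) (b : k), Transcendental F₀ b ∧
      FiniteDimensional (adjoin F₀ ({b} : Set k)) k := by
  obtain ⟨s, hs⟩ := exists_isTranscendenceBasis ℚ k
  rcases s.eq_empty_or_nonempty with he | ⟨b, hb⟩
  · left
    have : IsEmpty s := by rw [he]; exact Set.isEmpty_coe_sort.2 rfl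
    have h1 : Algebra.IsAlgebraic ℚ k := hs.isEmpty_iff_isAlgebraic.1 this
    exact fgp_fin ℚ k
  · right
    refine ⟨adjoin ℚ (s \ {b}), b, ?_, ?_⟩
    · rw [IntermediateField.transcendental_adjoin_iff]
      have h1 := hs.1.transcendental_adjoin (s := {x : s | x.1 ≠ b}) (i := ⟨b, hb⟩) (by simp)
      have h2 : ((↑) : s → k) '' {x : s | x.1 ≠ b} = s \ {b} := by
        ext y
        simp only [Set.mem_image, Set.mem_ofPred_eq, Subtype.exists, exists_and_left, exists_prop,
          Set.mem_sdiff, Set.mem_singleton_iff]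
        constructor
        · rintro ⟨a, h, h', rfl⟩; exact ⟨h', h⟩
        · rintro ⟨h, h'⟩; exact ⟨y, h', h, rfl⟩
      rw [h2] at h1
      exact h1
    · set F₀ := adjoin ℚ (s \ {b}) with hF0
      set L := adjoin F₀ ({b} : Set k) with hL
      have h1 : Algebra.IsAlgebraic (adjoin ℚ (Set.range ((↑) : s → k))) k := hs.isAlgebraic_field
      have hle : adjoin ℚ (Set.range ((↑) : s → k)) ≤ L.restrictScalars ℚ := by
        rw [adjoin_le_iff, Subtype.range_coe]
        intro y hy
        by_cases hyb : y = b
        · subst hyb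
          exact mem_adjoin_simple_self F₀ y
        · have h3 : y ∈ F₀ := subset_adjoin ℚ _ ⟨hy, hyb⟩
          exact L.algebraMap_mem ⟨y, h3⟩
      have h2 : Algebra.IsAlgebraic L k := by
        constructor
        intro x
        obtain ⟨p, hp0, hp⟩ := h1.isAlgebraic x
        let ι : (adjoin ℚ (Set.range ((↑) : s → k))) →+* L :=
          (IntermediateField.inclusion hle : _ →ₐ[ℚ] (L.restrictScalars ℚ)).toRingHom
        refine ⟨p.map ι, (Polynomial.map_ne_zero_iff ι.injective).2 hp0, ?_⟩
        rw [Polynomial.aeval_def, Polynomial.eval₂_map]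
        rw [Polynomial.aeval_def] at hp
        exact hp
      have : Algebra.EssFiniteType L k := Algebra.EssFiniteType.of_comp ℚ L k
      exact fgp_fin L k

theorem fgp_main (P : (K : Type) → [Field K] → Prop) (hR : ∀ (K : Type) [Field K], P (RatFunc K))
    (hE : ∀ (K K' : Type) [Field K] [CharZero K] [Field K'] [Algebra K K'] [FiniteDimensional K K'],
      P K → P K') (hQ : P ℚ) (k : Type) [Field k] [CharZero k] [Algebra.EssFiniteType ℚ k] : P k := by
  rcases fgp_base k with h | ⟨F₀, b, hb, hf⟩
  · exact hE ℚ k hQ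
  · let e : RatFunc F₀ ≃ₐ[F₀] adjoin F₀ ({b} : Set k) := RatFunc.algEquivOfTranscendental b hb
    letI : Algebra (RatFunc F₀) (adjoin F₀ ({b} : Set k)) := e.toRingEquiv.toRingHom.toAlgebra
    letI : Algebra (RatFunc F₀) k :=
      ((algebraMap (adjoin F₀ ({b} : Set k)) k).comp e.toRingEquiv.toRingHom).toAlgebra
    haveI : IsScalarTower (RatFunc F₀) (adjoin F₀ ({b} : Set k)) k :=
      IsScalarTower.of_algebraMap_eq fun x => rfl
    haveI h1 : Module.Finite (RatFunc F₀) (adjoin F₀ ({b} : Set k)) :=
      Module.Finite.of_surjective (Algebra.linearMap (RatFunc F₀) (adjoin F₀ ({b} : Set k)))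
        e.surjective
    haveI : FiniteDimensional (RatFunc F₀) k := Module.Finite.trans (adjoin F₀ ({b} : Set k)) k
    haveI : CharZero (RatFunc F₀) :=
      charZero_of_injective_algebraMap (algebraMap F₀ (RatFunc F₀)).injective
    exact hE (RatFunc F₀) k (hR F₀)

end Pool.Agent.NH7.FT
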