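import Pool.Agent.NH7.FT.FG0
import Pool.Agent.NH7.GH.NF
import Pool.Agent.Y140.HD.Hilb
import Pool.Agent.H793R2.HilbFin

/-!
Project FT: fields finitely generated over `ℚ` are Hilbertian (helper95).
-/

set_option autoImplicit false

namespace Pool.Agent.NH7.FT

theorem hilb_fg (k : Type) [Field k] [CharZero k] [Algebra.EssFiniteType ℚ k] :
    Pool.Agent.NH7.GH.Hilb k :=
  Pool.Agent.NH7.GH.NF.hilb_of
    (fgp_main (fun K _ => Pool.Agent.H391R2.T4.HilbField K)
      (fun K _ => Pool.Agent.Y140.HD.hilb_ratFunc K)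
      (fun K K' _ _ _ _ _ h => Pool.Agent.H793R2.HilbFin.taskE2 K K' h)
      Pool.Agent.H880R2.Hilb.taskE1 k)

end Pool.Agent.NH7.FT
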