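import Pool.Agent.NH7.FT.Defs

/-!
# Project FT, part A2: ultraproducts (helper54)
-/

set_option autoImplicit false
set_option linter.unusedSectionVars false

namespace Pool.Agent.NH7.FT

open Filter
open scoped TensorProduct

namespace GrmPP

section core

variable {k K : Type} [Field k] [Field K] [Algebra k K] (R : Subalgebra k K)
  {k₁ F : Type} [Field k₁] [Field F] [Algebra k k₁] (U : Ultrafilter ℕ)
  (g : (ℕ → k) →+* k₁) (G : (ℕ → K) →+* F)

/-- the sequences of constants in the ultrapower of `K` -/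
noncomputable def phi0 : (ℕ → k) →+* F := G.comp ((algebraMap k K).compLeft ℕ)

theorem exists_phi (hgs : Function.Surjective g)
    (hg : ∀ x y, g x = g y ↔ ∀ᶠ n in (U : Filter ℕ), x n = y n)
    (hG : ∀ x y, G x = G y ↔ ∀ᶠ n in (U : Filter ℕ), x n = y n) :
    ∃ φ : k₁ →+* F, ∀ x : ℕ → k, φ (g x) = G (fun n => algebraMap k K (x n)) := by
  have hker : RingHom.ker g ≤ RingHom.ker (phi0 G : (ℕ → k) →+* F) := by
    intro x hx
    rw [RingHom.mem_ker] at hx ⊢
    have h1 : g x = g 0 := by rw [hx, map_zero]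
    have h2 := (hg x 0).1 h1
    have h3 : G (fun n => algebraMap k K (x n)) = G 0 := by
      rw [hG]
      filter_upwards [h2] with n hn
      rw [hn]
      simp
    change G (fun n => algebraMap k K (x n)) = 0
    rw [h3, map_zero]
  refine ⟨g.liftOfSurjective hgs ⟨phi0 G, hker⟩, fun x => ?_⟩
  rw [RingHom.liftOfSurjective_comp_apply]
  rfl

theorem core (hgs : Function.Surjective g)
    (hg : ∀ x y, g x = g y ↔ ∀ᶠ n in (U : Filter ℕ), x n = y n)
    (hG : ∀ x y, G x = G y ↔ ∀ᶠ n in (U : Filter ℕ), x n = y n)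
    (hc : ∀ c : k, algebraMap k k₁ c = g (fun _ => c)) :
    ∃ μ : k₁ ⊗[k] R →+* F, Function.Injective μ ∧
      (∀ (x : ℕ → k) (r : R), μ (g x ⊗ₜ[k] r) = G fun n => ((x n • r : R) : K)) := by
  obtain ⟨φ, hφ⟩ := exists_phi U g G hgs hg hG
  let _ : Algebra k F := (φ.comp (algebraMap k k₁)).toAlgebra
  let f1 : k₁ →ₐ[k] F := { φ with commutes' := fun c => rfl }
  let f2 : R →ₐ[k] F :=
    { G.comp ((Pi.constRingHom ℕ K).comp R.val.toRingHom) with
      commutes' := fun c => by
        change G (fun _ => algebraMap k K c) = φ (algebraMap k k₁ c)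
        rw [hc, hφ] }
  let μ := Algebra.TensorProduct.productMap f1 f2
  have hμ : ∀ (x : ℕ → k) (r : R), μ (g x ⊗ₜ[k] r) = G fun n => ((x n • r : R) : K) := by
    intro x r
    change φ (g x) * G (fun _ => (r : K)) = _
    rw [hφ, ← map_mul]
    congr 1
    funext n
    change algebraMap k K (x n) * (r : K) = _
    rw [Subalgebra.coe_smul, Algebra.smul_def]
  refine ⟨μ.toRingHom, ?_, hμ⟩
  -- injectivity
  rw [injective_iff_map_eq_zero]
  intro u hu
  let b := Module.Basis.ofVectorSpace k R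
  let B := Algebra.TensorProduct.basis k₁ b
  choose y hy using fun i => hgs (B.repr u i)
  have h1 : u = ∑ i ∈ (B.repr u).support, (g (y i)) ⊗ₜ[k] b i := by
    conv_lhs => rw [← B.linearCombination_repr u]
    rw [Finsupp.linearCombination_apply, Finsupp.sum]
    refine Finset.sum_congr rfl fun i _ => ?_
    rw [Algebra.TensorProduct.basis_repr_symm_apply', hy]
  have h2 : μ u = G fun n => ((∑ i ∈ (B.repr u).support, y i n • b i : R) : K) := by
    conv_lhs => rw [h1]
    rw [map_sum, Finset.sum_congr rfl fun i _ => hμ (y i) (b i), ← map_sum]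
    congr 1
    funext n
    rw [Finset.sum_apply]
    push_cast
    rfl
  have h3 : G (fun n => ((∑ i ∈ (B.repr u).support, y i n • b i : R) : K)) = G 0 := by
    rw [← h2, map_zero]
    exact hu
  have h4 := (hG _ _).1 h3
  have h5 : ∀ i ∈ (B.repr u).support, B.repr u i = 0 := by
    intro i hi
    rw [← hy i, ← map_zero g, hg]
    filter_upwards [h4] with n hn
    have h6 : (∑ i ∈ (B.repr u).support, y i n • b i : R) = 0 := by
      apply Subtype.ext
      exact hn
    exact linearIndependent_iff'.1 b.linearIndependent _ _ h6 i hi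
  have h7 : (B.repr u).support = ∅ := by
    rw [Finset.eq_empty_iff_forall_notMem]
    intro i hi
    exact (Finsupp.mem_support_iff.1 hi) (h5 i hi)
  rw [h1, h7, Finset.sum_empty]

/-- finite-dimensional spaces -/
theorem field5 {μ : k₁ ⊗[k] R →+* F}
    (hμ : ∀ (x : ℕ → k) (r : R), μ (g x ⊗ₜ[k] r) = G fun n => ((x n • r : R) : K))
    (W : Submodule k R) (hW : FiniteDimensional k W) (x : ℕ → R) (hx : ∀ n, x n ∈ W) :
    ∃ u ∈ W.baseChange k₁, μ u = G fun n => (x n : K) := by
  let b := Module.finBasis k W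
  refine ⟨∑ j, (g fun n => b.repr ⟨x n, hx n⟩ j) ⊗ₜ[k] (b j : R), ?_, ?_⟩
  · exact Submodule.sum_mem _ fun j _ => Submodule.tmul_mem_baseChange_of_mem _ (b j).2
  · rw [map_sum, Finset.sum_congr rfl fun j _ => hμ _ _, ← map_sum]
    congr 1
    funext n
    rw [Finset.sum_apply]
    have h1 : (∑ j, b.repr ⟨x n, hx n⟩ j • (b j : R)) = x n := by
      have h2 := congrArg (fun w : W => (w : R)) (b.sum_repr ⟨x n, hx n⟩)
      simp only [Submodule.coe_sum, Submodule.coe_smul] at h2
      exact h2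
    have h3 := congrArg (fun w : R => (w : K)) h1
    push_cast at h3
    exact h3

/-- the elements of `k₁ ⊗ W` are represented by sequences -/
theorem field6 {μ : k₁ ⊗[k] R →+* F} (hgs : Function.Surjective g)
    (hμ : ∀ (x : ℕ → k) (r : R), μ (g x ⊗ₜ[k] r) = G fun n => ((x n • r : R) : K))
    (W : Submodule k R) (u : k₁ ⊗[k] R) (hu : u ∈ W.baseChange k₁) :
    ∃ x : ℕ → R, (∀ n, x n ∈ W) ∧ μ u = G fun n => (x n : K) := by
  obtain ⟨t, rfl⟩ := hu
  induction t using TensorProduct.induction_on with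
  | zero =>
    refine ⟨fun _ => 0, fun _ => W.zero_mem, ?_⟩
    rw [map_zero, map_zero, ← map_zero G]
    rfl
  | tmul a w =>
    obtain ⟨y, rfl⟩ := hgs a
    refine ⟨fun n => y n • (w : R), fun n => W.smul_mem _ w.2, ?_⟩
    exact hμ y w
  | add t1 t2 h1 h2 =>
    obtain ⟨x1, k1, e1⟩ := h1
    obtain ⟨x2, k2, e2⟩ := h2
    refine ⟨fun n => x1 n + x2 n, fun n => W.add_mem (k1 n) (k2 n), ?_⟩
    rw [map_add, map_add, e1, e2, ← map_add]
    rfl

end core

end GrmPP

open GrmPP in
theorem s_grm : S_grm := by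
  intro k K _ _ _ R
  let U : Ultrafilter ℕ := Filter.hyperfilter ℕ
  let g : (ℕ → k) →+* (U : Filter ℕ).Germ k := Germ.coeRingHom (U : Filter ℕ)
  let G : (ℕ → K) →+* (U : Filter ℕ).Germ K := Germ.coeRingHom (U : Filter ℕ)
  have hgs : Function.Surjective g := fun a => by
    induction a using Germ.inductionOn with
    | h x => exact ⟨x, rfl⟩
  have hg : ∀ x y, g x = g y ↔ ∀ᶠ n in (U : Filter ℕ), x n = y n := fun x y => Germ.coe_eq
  have hG : ∀ x y, G x = G y ↔ ∀ᶠ n in (U : Filter ℕ), x n = y n := fun x y => Germ.coe_eq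
  let A : Algebra k ((U : Filter ℕ).Germ k) := (g.comp (Pi.constRingHom ℕ k)).toAlgebra
  have hc : ∀ c : k, @algebraMap k ((U : Filter ℕ).Germ k) _ _ A c = g (fun _ => c) := fun c => rfl
  obtain ⟨μ, hinj, hμ⟩ := @core k K _ _ _ R ((U : Filter ℕ).Germ k) ((U : Filter ℕ).Germ K)
    _ _ A U g G hgs hg hG hc
  refine ⟨(U : Filter ℕ).Germ k, (U : Filter ℕ).Germ K, inferInstance, inferInstance, A, U, μ, G,
    hinj, ?_, hG, ?_, ?_, ?_⟩
  · intro n hn
    exact (Set.finite_singleton n).notMem_hyperfilter hn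
  · intro r
    have h1 : (1 : (U : Filter ℕ).Germ k) = g (fun _ => 1) := (map_one g).symm
    rw [h1]
    refine (hμ (fun _ => 1) r).trans ?_
    congr 1
    funext n
    rw [one_smul]
  · intro W hW x hx
    exact @field5 k K _ _ _ R ((U : Filter ℕ).Germ k) ((U : Filter ℕ).Germ K) _ _ A g G μ hμ
      W hW x hx
  · intro W u hu
    exact @field6 k K _ _ _ R ((U : Filter ℕ).Germ k) ((U : Filter ℕ).Germ K) _ _ A g G μ hgs hμ
      W u hu

end Pool.Agent.NH7.FT
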