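import Pool.Agent.NH7.FT.Defs

/-!
# FT7-C3 (helper26): Kummer theory for the constants
-/

set_option autoImplicit false

namespace Pool.Agent.NH7.FT.KumP

theorem core (k K L : Type) [Field k] [Field K] [Field L] [Algebra k K] [Algebra K L] [Algebra k L]
    [IsScalarTower k K L] [FiniteDimensional K L] [IsGalois K L] [CharZero K] (p : ℕ) [Fact p.Prime]
    (ζ : K) (hζ : IsPrimitiveRoot ζ p) (κ : K) (hκ : κ ≠ 0) (β : L) (hβ : algebraMap K L κ = β ^ p)
    (hs : β ∈ Submodule.span K {x : L | IsAlgebraic k x}) :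
    ∃ γ : K, γ ≠ 0 ∧ ∃ c : K, IsAlgebraic k c ∧ κ = γ ^ p * c := by
  classical
  have hp : p ≠ 0 := (Fact.out : p.Prime).ne_zero
  have hβ0 : β ≠ 0 := by
    rintro rfl
    rw [zero_pow hp] at hβ
    exact hκ ((map_eq_zero _).1 hβ)
  have hζ' : IsPrimitiveRoot (algebraMap K L ζ) p := hζ.map_of_injective (algebraMap K L).injective
  -- the character
  have hχ : ∀ τ : L ≃ₐ[K] L, ∃ i : ℕ, τ β = algebraMap K L (ζ ^ i) * β := by
    intro τ
    have h1 : (τ β / β) ^ p = 1 := by
      rw [div_pow, ← map_pow, ← hβ, AlgEquiv.commutes, hβ, div_self (pow_ne_zero _ hβ0)]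
    obtain ⟨i, -, hi⟩ := hζ'.eq_pow_of_pow_eq_one h1
    refine ⟨i, ?_⟩
    rw [map_pow, hi, div_mul_cancel₀ _ hβ0]
  choose i hi using hχ
  have hζ0 : ζ ≠ 0 := hζ.ne_zero hp
  have hζal : IsAlgebraic k ζ := by
    refine ⟨Polynomial.X ^ p - 1, ?_, ?_⟩
    · exact Polynomial.X_pow_sub_C_ne_zero (Nat.pos_of_ne_zero hp) 1
    · simp [hζ.pow_eq_one]
  obtain ⟨R, hR⟩ : ∃ R : L →ₗ[K] L, ∀ x, R x = ∑ τ : L ≃ₐ[K] L, algebraMap K L ((ζ ^ i τ)⁻¹) * τ x := by
    refine ⟨∑ τ : L ≃ₐ[K] L, (ζ ^ i τ)⁻¹ • τ.toLinearMap, fun x => ?_⟩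
    rw [LinearMap.sum_apply]
    refine Finset.sum_congr rfl fun τ _ => ?_
    rw [LinearMap.smul_apply, Algebra.smul_def]
    rfl
  have hRβ : R β ≠ 0 := by
    rw [hR]
    have : ∀ τ ∈ (Finset.univ : Finset (L ≃ₐ[K] L)), algebraMap K L ((ζ ^ i τ)⁻¹) * τ β = β := by
      intro τ _
      rw [hi τ, ← mul_assoc, ← map_mul, inv_mul_cancel₀ (pow_ne_zero _ hζ0), map_one, one_mul]
    rw [Finset.sum_congr rfl this, Finset.sum_const, nsmul_eq_mul]
    have : CharZero L := charZero_of_injective_algebraMap (algebraMap K L).injective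
    refine mul_ne_zero ?_ hβ0
    rw [Nat.cast_ne_zero]
    exact Finset.card_ne_zero.2 ⟨1, Finset.mem_univ _⟩
  obtain ⟨x, hx, hRx⟩ : ∃ x : L, IsAlgebraic k x ∧ R x ≠ 0 := by
    by_contra hcon
    push Not at hcon
    apply hRβ
    have : Submodule.span K {x : L | IsAlgebraic k x} ≤ LinearMap.ker R :=
      Submodule.span_le.2 fun x hx => hcon x hx
    exact this hs
  -- the eigenvector
  have hmul : ∀ σ τ : L ≃ₐ[K] L, ζ ^ i (σ * τ) = ζ ^ i σ * ζ ^ i τ := by
    intro σ τ
    have h1 : algebraMap K L (ζ ^ i (σ * τ)) * β = algebraMap K L (ζ ^ i σ * ζ ^ i τ) * β := by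
      rw [← hi, AlgEquiv.mul_apply, hi τ, map_mul, AlgEquiv.commutes, hi σ, map_mul]
      ring
    exact (algebraMap K L).injective (mul_right_cancel₀ hβ0 h1)
  have heig : ∀ σ : L ≃ₐ[K] L, σ (R x) = algebraMap K L (ζ ^ i σ) * R x := by
    intro σ
    rw [hR, map_sum, Finset.mul_sum]
    refine Fintype.sum_equiv (Equiv.mulLeft σ) _ _ fun τ => ?_
    rw [Equiv.coe_mulLeft, map_mul, AlgEquiv.commutes, hmul, AlgEquiv.mul_apply, ← mul_assoc, ← map_mul]
    congr 2
    field_simp
  obtain ⟨γ, hγ⟩ : β / R x ∈ Set.range (algebraMap K L) := by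
    rw [IsGalois.mem_range_algebraMap_iff_fixed]
    intro σ
    rw [map_div₀, heig σ, hi σ, mul_div_mul_left]
    exact (map_ne_zero _).2 (pow_ne_zero _ hζ0)
  have hγ0 : γ ≠ 0 := by
    rintro rfl
    rw [map_zero] at hγ
    exact (div_ne_zero hβ0 hRx) hγ.symm
  refine ⟨γ, hγ0, κ / γ ^ p, ?_, by field_simp⟩
  have h1 : algebraMap K L (κ / γ ^ p) = R x ^ p := by
    rw [map_div₀, map_pow, hγ, hβ, div_pow]
    field_simp
  have h2 : IsAlgebraic k (R x) := by
    rw [hR, ← mem_algebraicClosure_iff]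
    refine sum_mem fun τ _ => ?_
    rw [mem_algebraicClosure_iff]
    refine IsAlgebraic.mul ?_ ?_
    · exact ((hζal.pow _).inv).algebraMap
    · exact hx.algHom ((τ : L →ₐ[K] L).restrictScalars k)
  have h3 : IsAlgebraic k (algebraMap K L (κ / γ ^ p)) := by
    rw [h1]
    exact h2.pow p
  exact (isAlgebraic_algebraMap_iff (algebraMap K L).injective).1 h3

/-- elements of the compositum are linear combinations of algebraic elements -/
theorem span_of_mem (k K : Type) [Field k] [Field K] [Algebra k K] (β : Kb k K) :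
    (β : AlgebraicClosure K) ∈
      Submodule.span K ((algebraicClosure k (AlgebraicClosure K) : Set (AlgebraicClosure K))) := by
  have h1 : ∀ x : AlgebraicClosure K, x ∈ Algebra.adjoin K (algebraicClosure k (AlgebraicClosure K) : Set (AlgebraicClosure K)) →
      x ∈ Submodule.span K ((algebraicClosure k (AlgebraicClosure K) : Set (AlgebraicClosure K))) := by
    intro x hx
    have h2 : x ∈ Subalgebra.toSubmodule (Algebra.adjoin K (algebraicClosure k (AlgebraicClosure K) : Set (AlgebraicClosure K))) := hx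
    rw [Algebra.adjoin_eq_span] at h2
    have h3 : (Submonoid.closure (algebraicClosure k (AlgebraicClosure K) : Set (AlgebraicClosure K)) : Set (AlgebraicClosure K)) ⊆
        (algebraicClosure k (AlgebraicClosure K) : Set (AlgebraicClosure K)) := by
      have : Submonoid.closure (algebraicClosure k (AlgebraicClosure K) : Set (AlgebraicClosure K)) ≤
          (algebraicClosure k (AlgebraicClosure K)).toSubfield.toSubring.toSubmonoid := Submonoid.closure_le.2 fun y hy => hy
      exact this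
    exact Submodule.span_mono h3 h2
  refine h1 _ ?_
  obtain ⟨x, hx⟩ := β
  show x ∈ Algebra.adjoin K (algebraicClosure k (AlgebraicClosure K) : Set (AlgebraicClosure K))
  induction hx using IntermediateField.adjoin_induction with
  | mem x hx =>
    obtain ⟨y, rfl⟩ := hx
    exact Subalgebra.algebraMap_mem _ y
  | algebraMap x => exact Algebra.subset_adjoin x.2
  | add x y _ _ h1 h2 => exact add_mem h1 h2
  | inv x _ h => exact Subalgebra.inv_mem_of_algebraic (A := Algebra.adjoin K _) (x := ⟨x, h⟩) (Algebra.IsAlgebraic.isAlgebraic x)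
  | mul x y _ _ h1 h2 => exact mul_mem h1 h2

end Pool.Agent.NH7.FT.KumP

namespace Pool.Agent.NH7.FT

open Pool.Agent.H525R3.FFp FF

theorem s_kum : S_kum := by
  intro k K _ _ _ _ _ p _ ζ hζ κ β hβ
  have hcK : CharZero K := charZero_of_injective_algebraMap (algebraMap k K).injective
  have : IsGalois K (AlgebraicClosure K) := ⟨⟩
  obtain ⟨T, hT, hβT⟩ := Submodule.mem_span_finite_of_mem_span (KumP.span_of_mem k K β)
  let L : FiniteGaloisIntermediateField K (AlgebraicClosure K) :=
    FiniteGaloisIntermediateField.adjoin K (T : Set (AlgebraicClosure K))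
  have hTL : (T : Set (AlgebraicClosure K)) ⊆ (L : IntermediateField K (AlgebraicClosure K)) :=
    FiniteGaloisIntermediateField.subset_adjoin K (T : Set (AlgebraicClosure K))
  have h1 : (T : Set (AlgebraicClosure K)) ⊆
      (IntermediateField.val (L : IntermediateField K (AlgebraicClosure K))).toLinearMap ''
        {x : L | IsAlgebraic k x} := by
    intro x hx
    refine ⟨⟨x, hTL hx⟩, ?_, rfl⟩
    have h2 : IsAlgebraic k x := mem_algebraicClosure_iff.1 (hT hx)
    have : IsScalarTower k L (AlgebraicClosure K) := IsScalarTower.of_algebraMap_eq fun x => rfl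
    exact (isAlgebraic_algebraMap_iff (R := k) (A := AlgebraicClosure K)
      (algebraMap L (AlgebraicClosure K)).injective).1 h2
  have h2 := Submodule.span_mono (R := K) h1 hβT
  rw [← Submodule.map_span] at h2
  obtain ⟨b, hb, hbβ⟩ := h2
  have h3 : algebraMap K L (κ : K) = b ^ p := by
    apply (algebraMap L (AlgebraicClosure K)).injective
    rw [map_pow]
    have h4 : algebraMap L (AlgebraicClosure K) b = (β : AlgebraicClosure K) := hbβ
    rw [h4]
    exact congrArg Subtype.val hβ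
  obtain ⟨γ, hγ, c, hc, h⟩ := KumP.core k K L p ζ hζ κ κ.ne_zero b h3 hb
  refine ⟨Units.mk0 γ hγ, fun v => ?_⟩
  have hc0 : c ≠ 0 := by
    rintro rfl
    rw [mul_zero] at h
    exact κ.ne_zero h
  rw [h, v.ord_mul (pow_ne_zero _ hγ) hc0, v.ord_eq_zero_of_isAlgebraic hc0 hc, add_zero, Units.val_mk0]
  exact v.ord_pow _ _

end Pool.Agent.NH7.FT
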