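import Pool.Agent.NH7.FT.Defs

/-!
# The linear condition
-/

set_option autoImplicit false

namespace Pool.Agent.NH7.FT

open Pool.Agent.H525R3.FFp Filter
open FF (Place IsFF)

/-- **B4.** The linear condition. -/
theorem s_lin : S_lin := by
  intro k K _ _ _ _ _ _ w N E a b ha hb hwa hwb hE hEw hL u hu u' hu' huu
  classical
  by_contra hu0
  have hu'0 : u' ≠ 0 := by
    intro h
    rw [h, zero_mul] at huu
    exact (mul_ne_zero hu0 hb) huu
  have h1 := (mem_LL.1 hu).resolve_left hu0
  have h2 := (mem_LL.1 hu').resolve_left hu'0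
  have hh : u / a = u' / b := by
    rw [div_eq_div_iff ha hb, huu]
  have hh0 : u / a ≠ 0 := div_ne_zero hu0 ha
  have hmem : u / a ∈ LL (E - Finsupp.single w 1) := by
    rw [mem_LL]
    right
    intro v
    by_cases hv : v = w
    · subst hv
      have h3 := h1 v
      rw [Finsupp.single_eq_same] at h3
      rw [v.ord_div hu0 ha, hwa, Finsupp.sub_apply, hEw, Finsupp.single_eq_same]
      omega
    · have h3 := h1 v
      have h4 := h2 v
      have hs1 : (Finsupp.single w (N - 1) : Place k K →₀ ℤ) v = 0 :=
        Finsupp.single_eq_of_ne hv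
      have hs2 : (Finsupp.single w (1 : ℤ) : Place k K →₀ ℤ) v = 0 :=
        Finsupp.single_eq_of_ne hv
      rw [hs1] at h3 h4
      have h5 : v.ord (u / a) = v.ord u - v.ord a := v.ord_div hu0 ha
      have h6 : v.ord (u / a) = v.ord u' - v.ord b := by
        rw [hh]
        exact v.ord_div hu'0 hb
      rw [Finsupp.sub_apply, hs2, ← hE v hv]
      rcases min_choice (v.ord a) (v.ord b) with h | h
      · rw [h, h5]
        omega
      · rw [h, h6]
        omega
  rw [hL, Submodule.mem_bot] at hmem
  exact hh0 hmem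

end Pool.Agent.NH7.FT
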