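import Pool.Agent.NH7.FT.Defs
import Pool.Agent.H525R3.FFp.Riemann

/-! The minimal pole order (B1, second version). -/

set_option autoImplicit false
set_option linter.unusedSectionVars false

namespace Pool.Agent.NH7.FT.V2

open Pool.Agent.H525R3.FFp
open FF (Place IsFF)

/-- All places have degree one. -/
theorem deg_one {k K : Type} [Field k] [CharZero k] [IsAlgClosed k] [Field K] [Algebra k K]
    [IsFF k K] (w : Place k K) : w.deg = 1 := by
  have hfin : FiniteDimensional k w.RF := FiniteDimensional.of_finrank_pos (deg_pos w)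
  have hb : Function.Bijective (algebraMap k w.RF) :=
    IsAlgClosed.algebraMap_bijective_of_isIntegral
  have h := (LinearEquiv.ofBijective (Algebra.linearMap k w.RF) hb).finrank_eq
  rw [Module.finrank_self] at h
  exact h.symm

/-- The minimal pole order. -/
theorem s_min' : ∀ (k K : Type) [Field k] [CharZero k] [IsAlgClosed k] [Field K] [Algebra k K]
  [IsFF k K] (w : Place k K) (p : ℕ), 1 ≤ p → ∃ r₀ : ℕ, ∀ κ : Kˣ,
    (∀ v : Place k K, (p : ℤ) ∣ v.ord (κ : K)) →
    ∃ (β : Kˣ) (E : Place k K →₀ ℤ) (r : ℕ), r ≤ r₀ ∧ 0 ≤ E ∧ E w = 0 ∧ ddeg E = r ∧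
      (∀ v : Place k K, v.ord ((κ : K) * (β : K) ^ p) = p * (E v - Finsupp.single w (r : ℤ) v)) ∧
      LL (E - Finsupp.single w 1) = ⊥ := by
  intro k K _ _ _ _ _ _ w p hp
  classical
  have hdeg : w.deg = 1 := deg_one w
  obtain ⟨γ, N, h1, -⟩ := riemann k K
  refine ⟨(γ + 1).toNat, ?_⟩
  intro κ hκ
  obtain ⟨D', hD'⟩ : ∃ D' : Place k K →₀ ℤ, ∀ v, (p : ℤ) * D' v = v.ord (κ : K) := by
    refine ⟨(divisor k (κ : K)).mapRange (fun n => n / p) (by simp), fun v => ?_⟩
    rw [Finsupp.mapRange_apply, divisor_apply]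
    exact Int.mul_ediv_cancel' (hκ v)
  have hD'' : p • D' = divisor k (κ : K) := by
    ext v
    rw [Finsupp.smul_apply, nsmul_eq_mul, divisor_apply, hD' v]
  have hp0 : (p : ℤ) ≠ 0 := by omega
  have hdd : ddeg D' = 0 := by
    have h := ddeg_nsmul p D'
    rw [hD'', ddeg_divisor] at h
    exact (mul_eq_zero.1 h.symm).resolve_left hp0
  have hex0 : LL (D' + Finsupp.single w (((γ + 1).toNat : ℕ) : ℤ)) ≠ ⊥ := by
    intro hbot
    have h3 := h1 (D' + Finsupp.single w (((γ + 1).toNat : ℕ) : ℤ))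
    rw [ddeg_add, hdd, ddeg_single, hdeg] at h3
    unfold ell at h3
    rw [hbot, finrank_bot] at h3
    push_cast at h3
    omega
  have hex : ∃ r : ℕ, LL (D' + Finsupp.single w (r : ℤ)) ≠ ⊥ := ⟨_, hex0⟩
  obtain ⟨r, hr, hmin, hrle⟩ : ∃ r : ℕ, LL (D' + Finsupp.single w (r : ℤ)) ≠ ⊥ ∧
      (∀ s : ℕ, s < r → LL (D' + Finsupp.single w (s : ℤ)) = ⊥) ∧ r ≤ (γ + 1).toNat :=
    ⟨Nat.find hex, Nat.find_spec hex, fun s hs => not_not.1 (Nat.find_min hex hs),
      Nat.find_min' hex hex0⟩
  obtain ⟨β, hβ, hβ0⟩ := Submodule.exists_mem_ne_zero_of_ne_bot hr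
  have hE0 : 0 ≤ D' + Finsupp.single w (r : ℤ) + divisor k β := by
    have h := (mem_LL' hβ0).1 hβ
    rwa [add_comm] at h
  have hbot : LL (D' + Finsupp.single w (r : ℤ) + divisor k β - Finsupp.single w 1) = ⊥ := by
    rw [eq_bot_iff]
    intro x hx
    rw [Submodule.mem_bot]
    by_contra hx0
    have hx' := (mem_LL.1 hx).resolve_left hx0
    have hm : β * x ∈ LL (D' + Finsupp.single w ((r : ℤ) - 1)) := by
      refine mem_LL.2 (Or.inr fun v => ?_)
      have hv := hx' v
      rw [v.ord_mul hβ0 hx0]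
      rw [Finsupp.sub_apply, Finsupp.add_apply, Finsupp.add_apply, divisor_apply] at hv
      rw [Finsupp.single_sub, Finsupp.add_apply, Finsupp.sub_apply]
      omega
    have hz : LL (D' + Finsupp.single w ((r : ℤ) - 1)) = ⊥ := by
      rcases Nat.eq_zero_or_pos r with h0 | h0
      · apply LL_eq_bot
        rw [ddeg_add, hdd, ddeg_single, hdeg, h0]
        norm_num
      · have h := hmin (r - 1) (by omega)
        rwa [Nat.cast_sub (by omega : 1 ≤ r), Nat.cast_one] at h
    rw [hz, Submodule.mem_bot] at hm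
    exact (mul_ne_zero hβ0 hx0) hm
  have hEw : (D' + Finsupp.single w (r : ℤ) + divisor k β) w = 0 := by
    by_contra hne
    have hpos : 1 ≤ (D' + Finsupp.single w (r : ℤ) + divisor k β) w := by
      have h := hE0 w
      rw [Finsupp.zero_apply] at h
      omega
    have h1m : (1 : K) ∈ LL (D' + Finsupp.single w (r : ℤ) + divisor k β - Finsupp.single w 1) := by
      refine mem_LL.2 (Or.inr fun v => ?_)
      have ho : v.ord (1 : K) = 0 := by
        have := v.ord_const (c := (1 : k)) one_ne_zero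
        rwa [map_one] at this
      rw [ho, Finsupp.sub_apply]
      by_cases hv : v = w
      · rw [hv, Finsupp.single_eq_same]
        omega
      · rw [Finsupp.single_eq_of_ne hv]
        have h := hE0 v
        rw [Finsupp.zero_apply] at h
        omega
    rw [hbot, Submodule.mem_bot] at h1m
    exact one_ne_zero h1m
  refine ⟨Units.mk0 β hβ0, D' + Finsupp.single w (r : ℤ) + divisor k β, r, hrle, hE0, hEw, ?_, ?_,
    hbot⟩
  · rw [ddeg_add, ddeg_add, hdd, ddeg_single, ddeg_divisor, hdeg]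
    push_cast
    ring
  · intro v
    rw [Units.val_mk0, v.ord_mul κ.ne_zero (pow_ne_zero _ hβ0), v.ord_pow, ← hD' v,
      Finsupp.add_apply, Finsupp.add_apply, divisor_apply]
    ring

/-- B1. -/
theorem s_min : Pool.Agent.NH7.FT.S_min := s_min'

end Pool.Agent.NH7.FT.V2
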