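import Pool.Agent.NH7.FT.Defs

/-! # B6: finiteness over algebraically closed fields -/

set_option autoImplicit false

namespace Pool.Agent.NH7.FT

open Pool.Agent.H525R3.FFp Filter
open FF (Place IsFF)
open Pool.Agent.NH7.GH (PicF)

namespace PicAP

section

variable {k K : Type} [Field k] [Field K] [Algebra k K]

theorem has_smul {w : Place k K} {p : ℕ} {M N : ℤ} {f : K} {c : k} (hc : c ≠ 0)
    (h : Has w p M N f) : Has w p M N (c⁻¹ • f) := by
  obtain ⟨a, b, c0, c1, c2, c3, d0, d1, h⟩ := h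
  have hm : ∀ x y : K, (c⁻¹ • x) * (c • y) = x * y := by
    intro x y
    rw [smul_mul_smul_comm, inv_mul_cancel₀ hc, one_smul]
  refine ⟨a, b, c • c0, c • c1, c • c2, c • c3, c⁻¹ • d0, c⁻¹ • d1, ?_⟩
  exact
    { f_mem := Submodule.smul_mem _ _ h.f_mem
      a_mem := h.a_mem
      b_mem := h.b_mem
      c0_mem := Submodule.smul_mem _ _ h.c0_mem
      c1_mem := Submodule.smul_mem _ _ h.c1_mem
      c2_mem := Submodule.smul_mem _ _ h.c2_mem
      c3_mem := Submodule.smul_mem _ _ h.c3_mem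
      d0_mem := Submodule.smul_mem _ _ h.d0_mem
      d1_mem := Submodule.smul_mem _ _ h.d1_mem
      a_ne := h.a_ne
      b_ne := h.b_ne
      e0 := by rw [hm]; exact h.e0
      e1 := by rw [hm]; exact h.e1
      e2 := by rw [hm]; exact h.e2
      e3 := by rw [hm]; exact h.e3
      bez := by rw [hm, hm]; exact h.bez
      ord_a := h.ord_a
      ord_b := h.ord_b
      lin := h.lin }

theorem has_mem {w : Place k K} {p : ℕ} {M N : ℤ} {f : K} (h : Has w p M N f) : f ∈ V w M := by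
  obtain ⟨a, b, c0, c1, c2, c3, d0, d1, h⟩ := h
  exact h.f_mem

theorem ord_smul (v : Place k K) {c : k} (hc : c ≠ 0) {f : K} (hf : f ≠ 0) :
    v.ord (c • f) = v.ord f := by
  rw [Algebra.smul_def, v.ord_mul (by simpa using hc) hf, v.ord_const hc, zero_add]

theorem mem_V {w : Place k K} {M : ℤ} {f : K} (hf : f ≠ 0) :
    f ∈ V w M ↔ -M ≤ w.ord f ∧ ∀ v, v ≠ w → 0 ≤ v.ord f := by
  change (f = 0 ∨ ∀ P : Place k K, -(Finsupp.single w M P) ≤ P.ord f) ↔ _
  constructor
  · intro h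
    have h := h.resolve_left hf
    refine ⟨?_, fun v hv => ?_⟩
    · have := h w
      rwa [Finsupp.single_eq_same] at this
    · have := h v
      rwa [Finsupp.single_eq_of_ne hv, neg_zero] at this
  · rintro ⟨h1, h2⟩
    right
    intro v
    by_cases hv : v = w
    · subst hv
      rwa [Finsupp.single_eq_same]
    · rw [Finsupp.single_eq_of_ne hv, neg_zero]
      exact h2 v hv

variable [CharZero k] [IsAlgClosed k] [IsFF k K]

theorem step (w : Place k K) (q : ℤ) {f g : K} (hf0 : f ≠ 0) (hg0 : g ≠ 0) (hf : f ∈ V w q)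
    (hg : g ∈ V w q) (hfo : w.ord f = -q) (hgo : w.ord g = -q) :
    ∃ c : k, c ≠ 0 ∧ f - c • g ∈ V w (q - 1) := by
  have hh0 : f / g ≠ 0 := div_ne_zero hf0 hg0
  have hho : w.ord (f / g) = 0 := by
    rw [w.ord_div hf0 hg0, hfo, hgo, sub_self]
  have hreg : w.Reg (f / g) := Or.inr hho.ge
  have hne : w.red (f / g) ≠ 0 := w.red_ne_zero hh0 hho
  obtain ⟨c, hc⟩ := (IsAlgClosed.algebraMap_bijective_of_isIntegral (k := k) (K := w.RF)).2
    (w.red (f / g))
  have hc0 : c ≠ 0 := by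
    rintro rfl
    rw [map_zero] at hc
    exact hne hc.symm
  refine ⟨c, hc0, ?_⟩
  have hr : w.Reg (f / g - algebraMap k K c) := by
    rw [sub_eq_add_neg]
    exact w.reg_add hreg (w.reg_neg (w.reg_const c))
  have hz : w.red (f / g - algebraMap k K c) = 0 := by
    rw [w.red_sub hreg (w.reg_const c), ← Place.algebraMap_RF, hc, sub_self]
  have he : f - c • g = g * (f / g - algebraMap k K c) := by
    rw [mul_sub, mul_div_cancel₀ _ hg0, Algebra.smul_def, mul_comm g]
  rcases (w.red_eq_zero_iff hr).1 hz with h | h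
  · rw [he, h, mul_zero]
    exact Submodule.zero_mem _
  · have h0 : f / g - algebraMap k K c ≠ 0 := by
      intro h0
      rw [h0, w.ord_zero] at h
      exact lt_irrefl _ h
    have hn : f - c • g ≠ 0 := by
      rw [he]
      exact mul_ne_zero hg0 h0
    have hm : f - c • g ∈ V w q := Submodule.sub_mem _ hf (Submodule.smul_mem _ _ hg)
    refine (mem_V hn).2 ⟨?_, ((mem_V hn).1 hm).2⟩
    rw [he, w.ord_mul hg0 h0, hgo]
    omega

end

end PicAP

open PicAP in
theorem s_picA (h1 : S_rep) (h2 : S_ultra) : S_picA := by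
  classical
  intro k K _ _ _ _ _ _ p hp
  have hp2 : 2 ≤ p := hp.out.two_le
  obtain ⟨w, -⟩ := exists_place (k := k) (K := K)
  obtain ⟨M, N, Q, hQ⟩ := h1 k K w p hp2
  let G : ℤ → Prop := fun q => ∃ g : K, g ≠ 0 ∧ g ∈ V w q ∧ w.ord g = -q
  let F : ℤ → Set K := fun q => if h : G q then
    {f : K | Has w p M N f ∧ w.ord f = -q ∧ f - h.choose ∈ V w (q - 1)} else ∅
  have hF : ∀ q, (F q).Finite := by
    intro q
    by_cases h : G q
    · simp only [F, dif_pos h]
      exact h2 k K w p hp2 M N q h.choose h.choose_spec.1 h.choose_spec.2.1 h.choose_spec.2.2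
    · simp only [F, dif_neg h]
      exact Set.finite_empty
  have hT : (⋃ q ∈ Set.Icc (0 : ℤ) Q, F q).Finite :=
    Set.Finite.biUnion (Set.finite_Icc 0 Q) fun q _ => hF q
  let dv : K → (Place k K →₀ ℤ) := fun f => (divisor k f).mapRange (fun n => n / (p : ℤ)) (by simp)
  refine ⟨(hT.image dv).toFinset, ?_⟩
  rintro D ⟨κ, hκ⟩
  obtain ⟨β, hHas, hlo, hhi⟩ := hQ κ fun v => ⟨D v, (hκ v).symm⟩
  set f : K := (κ : K) * (β : K) ^ p with hfdef
  have hβ0 : (β : K) ≠ 0 := β.ne_zero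
  have hf0 : f ≠ 0 := mul_ne_zero κ.ne_zero (pow_ne_zero _ hβ0)
  have hfV : f ∈ V w (-w.ord f) :=
    (mem_V hf0).2 ⟨by rw [neg_neg], ((mem_V hf0).1 (has_mem hHas)).2⟩
  have hG : G (-w.ord f) := ⟨f, hf0, hfV, by rw [neg_neg]⟩
  have hg := hG.choose_spec
  obtain ⟨c, hc0, hc⟩ := step w (-w.ord f) hf0 hg.1 hfV hg.2.1 (by rw [neg_neg]) hg.2.2
  have hmem : c⁻¹ • f ∈ F (-w.ord f) := by
    simp only [F, dif_pos hG]
    refine ⟨has_smul hc0 hHas, ?_, ?_⟩
    · rw [ord_smul w (inv_ne_zero hc0) hf0, neg_neg]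
    · have h3 : c⁻¹ • f - hG.choose = c⁻¹ • (f - c • hG.choose) := by
        rw [smul_sub, smul_smul, inv_mul_cancel₀ hc0, one_smul]
      rw [h3]
      exact Submodule.smul_mem _ _ hc
  refine ⟨dv (c⁻¹ • f), ?_, β⁻¹, ?_⟩
  · rw [Set.Finite.mem_toFinset]
    refine Set.mem_image_of_mem _ ?_
    refine Set.mem_biUnion (x := -w.ord f) ?_ hmem
    exact ⟨by omega, by omega⟩
  · intro v
    have h4 : v.ord (c⁻¹ • f) = (p : ℤ) * (D v + v.ord (β : K)) := by
      rw [ord_smul v (inv_ne_zero hc0) hf0, hfdef, v.ord_mul κ.ne_zero (pow_ne_zero _ hβ0),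
        v.ord_pow, ← hκ v]
      ring
    have h5 : dv (c⁻¹ • f) v = D v + v.ord (β : K) := by
      change v.ord (c⁻¹ • f) / (p : ℤ) = _
      rw [h4]
      exact Int.mul_ediv_cancel_left _ (by exact_mod_cast hp.out.ne_zero)
    rw [h5, Units.val_inv_eq_inv_val, v.ord_inv]
    ring

end Pool.Agent.NH7.FT
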