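import Pool.Agent.NH7.FT.Defs

/-!
# C4. Finiteness of the classes of order `p` in general (helper23)
-/

set_option autoImplicit false
set_option linter.unusedSectionVars false

namespace Pool.Agent.NH7.FT

open Pool.Agent.H525R3.FFp Filter
open FF (Place IsFF)
open Pool.Agent.NH7.GH (PicF)

namespace PicBP

section const

variable {k K : Type} [Field k] [CharZero k] [IsAlgClosed k] [Field K] [Algebra k K] [IsFF k K]

/-- the functions which are regular everywhere -/
def S0 (k K : Type) [Field k] [CharZero k] [IsAlgClosed k] [Field K] [Algebra k K] [IsFF k K] :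
    Subalgebra k K where
  carrier := {x | ∀ v : Place k K, 0 ≤ v.ord x}
  mul_mem' := by
    intro x y hx hy v
    by_cases hx0 : x = 0
    · rw [hx0, zero_mul, v.ord_zero]
    by_cases hy0 : y = 0
    · rw [hy0, mul_zero, v.ord_zero]
    rw [v.ord_mul hx0 hy0]
    exact add_nonneg (hx v) (hy v)
  add_mem' := by
    intro x y hx hy v
    by_cases hx0 : x = 0
    · rw [hx0, zero_add]
      exact hy v
    by_cases hy0 : y = 0
    · rw [hy0, add_zero]
      exact hx v
    by_cases hxy : x + y = 0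
    · rw [hxy, v.ord_zero]
    · exact le_trans (le_min (hx v) (hy v)) (v.ord_add hx0 hy0 hxy)
  algebraMap_mem' := by
    intro c v
    by_cases hc : c = 0
    · rw [hc, map_zero, v.ord_zero]
    · exact (v.ord_const hc).ge

/-- the functions without zeros and poles are constants -/
theorem const_of_ord {z : K} (hz : ∀ v : Place k K, v.ord z = 0) : ∃ c : k, algebraMap k K c = z := by
  have h1 : Subalgebra.toSubmodule (S0 k K) = LL (0 : Place k K →₀ ℤ) := by
    ext x
    rw [Subalgebra.mem_toSubmodule, mem_LL]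
    constructor
    · intro hx
      right
      intro P
      have := hx P
      simpa using this
    · rintro (hx | hx)
      · rw [hx]
        exact zero_mem _
      · intro P
        have := hx P
        simpa using this
  have h2 : FiniteDimensional k (Subalgebra.toSubmodule (S0 k K)) := by
    rw [h1]
    infer_instance
  have h3 : Module.Finite k (S0 k K) := h2
  have h4 : Algebra.IsIntegral k (S0 k K) := Algebra.IsIntegral.of_finite k (S0 k K)
  have h5 : z ∈ S0 k K := fun v => (hz v).ge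
  obtain ⟨c, hc⟩ := (IsAlgClosed.algebraMap_bijective_of_isIntegral (k := k) (K := S0 k K)).2 ⟨z, h5⟩
  exact ⟨c, congrArg Subtype.val hc⟩

/-- they are `p`-th powers -/
theorem pow_of_ord {z : K} (hz : ∀ v : Place k K, v.ord z = 0) {p : ℕ} (hp : 0 < p) :
    ∃ c : K, c ^ p = z := by
  obtain ⟨c, rfl⟩ := const_of_ord hz
  obtain ⟨d, rfl⟩ := IsAlgClosed.exists_pow_nat_eq c hp
  exact ⟨algebraMap k K d, (map_pow _ _ _).symm⟩

end const

end PicBP

open PicBP

theorem s_picB (h1 : S_picA) (h2 : S_acl) (h3 : S_res) (h4 : S_kum) : S_picB := by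
  intro k K _ _ _ _ _ p hpf ζ hζ
  classical
  obtain ⟨i1, i2⟩ := h2 k K
  have i3 : CharZero (kb k K) :=
    charZero_of_injective_algebraMap (algebraMap k (kb k K)).injective
  obtain ⟨s', hs'⟩ := h1 (kb k K) (Kb k K) p
  have hp0 : (p : ℤ) ≠ 0 := by exact_mod_cast hpf.out.ne_zero
  -- the relation between the divisors of `K` and those of the compositum
  let Q : (Place k K →₀ ℤ) → (Place (kb k K) (Kb k K) →₀ ℤ) → Prop := fun D D₀ =>
    ∃ (κ : Kˣ) (β : (Kb k K)ˣ), (∀ v : Place k K, (p : ℤ) * D v = v.ord (κ : K)) ∧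
      ∀ v' : Place (kb k K) (Kb k K), v'.ord (incl k K κ) = p * (D₀ v' + v'.ord (β : Kb k K))
  -- step 1
  have st1 : ∀ D : Place k K →₀ ℤ, (∃ κ : Kˣ, ∀ v, (p : ℤ) * D v = v.ord (κ : K)) →
      ∃ D₀ ∈ s', Q D D₀ := by
    rintro D ⟨κ, hκ⟩
    set D' : Place (kb k K) (Kb k K) →₀ ℤ :=
      (divisor (kb k K) (incl k K κ)).mapRange (fun n => n / (p : ℤ)) (by simp) with hD'
    have hd : ∀ v' : Place (kb k K) (Kb k K), (p : ℤ) * D' v' = v'.ord (incl k K κ) := by
      intro v'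
      obtain ⟨v, e, -, he⟩ := h3 k K v'
      have h5 : (p : ℤ) ∣ v'.ord (incl k K κ) := by
        rw [he, ← hκ v]
        exact ⟨e * D v, by ring⟩
      rw [hD', Finsupp.mapRange_apply, divisor_apply]
      exact Int.mul_ediv_cancel' h5
    obtain ⟨D₀, hD₀, β, hβ⟩ := hs' D' ⟨Units.map (incl k K : K →* Kb k K) κ, hd⟩
    refine ⟨D₀, hD₀, κ, β, hκ, fun v' => ?_⟩
    rw [← hd, hβ]
  -- step 2
  have st2 : ∀ (D₁ D₂ : Place k K →₀ ℤ) (D₀ : Place (kb k K) (Kb k K) →₀ ℤ), Q D₁ D₀ → Q D₂ D₀ →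
      ∃ γ : Kˣ, ∀ v, D₁ v = D₂ v + v.ord (γ : K) := by
    rintro D₁ D₂ D₀ ⟨κ₁, β₁, a1, b1⟩ ⟨κ₂, β₂, a2, b2⟩
    have n1 : incl k K κ₁ ≠ 0 := (map_ne_zero _).2 κ₁.ne_zero
    have n2 : incl k K κ₂ ≠ 0 := (map_ne_zero _).2 κ₂.ne_zero
    have m1 : (β₁ : Kb k K) ≠ 0 := β₁.ne_zero
    have m2 : (β₂ : Kb k K) ≠ 0 := β₂.ne_zero
    obtain ⟨c, hc⟩ := pow_of_ord (k := kb k K) (K := Kb k K)
      (z := incl k K κ₁ / incl k K κ₂ / ((β₁ : Kb k K) / β₂) ^ p) (fun v' => by
        rw [v'.ord_div (div_ne_zero n1 n2) (pow_ne_zero _ (div_ne_zero m1 m2)), v'.ord_div n1 n2,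
          v'.ord_pow, v'.ord_div m1 m2, b1, b2]
        ring) hpf.out.pos
    obtain ⟨γ, hγ⟩ := h4 k K p ζ hζ (κ₁ / κ₂) (c * ((β₁ : Kb k K) / β₂)) (by
      rw [mul_pow, hc, div_mul_cancel₀ _ (pow_ne_zero _ (div_ne_zero m1 m2)), Units.val_div_eq_div_val,
        map_div₀])
    refine ⟨γ, fun v => ?_⟩
    have h5 := hγ v
    rw [Units.val_div_eq_div_val, v.ord_div κ₁.ne_zero κ₂.ne_zero, ← a1, ← a2] at h5
    apply mul_left_cancel₀ hp0
    linear_combination h5
  -- conclusion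
  refine ⟨s'.image (fun D₀ => if h : ∃ D, Q D D₀ then Classical.choose h else 0), fun D hD => ?_⟩
  obtain ⟨D₀, hD₀, hQ⟩ := st1 D hD
  have hex : ∃ D, Q D D₀ := ⟨D, hQ⟩
  refine ⟨Classical.choose hex, Finset.mem_image.2 ⟨D₀, hD₀, dif_pos hex⟩, ?_⟩
  exact st2 D _ D₀ hQ (Classical.choose_spec hex)

end Pool.Agent.NH7.FT
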