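import Pool.Agent.NH7.FT.Defs

/-!
# Every class of order `p` is described by data
-/

set_option autoImplicit false
set_option linter.unusedSectionVars false

namespace Pool.Agent.NH7.FT

open Pool.Agent.H525R3.FFp Filter
open FF (Place IsFF)

namespace RepP

variable {k K : Type} [Field k] [Field K] [Algebra k K]

theorem ord_c (v : Place k K) {a b f : K} (ha : a ≠ 0) (hb : b ≠ 0) (hf : f ≠ 0) (i j : ℕ) :
    v.ord (a ^ i * b ^ j / f) = i * v.ord a + j * v.ord b - v.ord f := by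
  rw [v.ord_div (mul_ne_zero (pow_ne_zero _ ha) (pow_ne_zero _ hb)) hf,
    v.ord_mul (pow_ne_zero _ ha) (pow_ne_zero _ hb), v.ord_pow, v.ord_pow]

theorem mem_V {w : Place k K} {M : ℤ} {x : K} (h : ∀ v, v ≠ w → 0 ≤ v.ord x)
    (hw : -M ≤ w.ord x) : x ∈ V w M := by
  refine Or.inr fun P => ?_
  by_cases hP : P = w
  · subst hP
    rw [Finsupp.single_eq_same]
    exact hw
  · rw [Finsupp.single_eq_of_ne hP, neg_zero]
    exact h P hP

theorem V_mono {w : Place k K} {M N : ℤ} (h : M ≤ N) {x : K} (hx : x ∈ V w M) : x ∈ V w N := by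
  rcases hx with hx | hx
  · exact Or.inl hx
  · refine Or.inr fun P => le_trans ?_ (hx P)
    by_cases hP : P = w
    · subst hP
      rw [Finsupp.single_eq_same, Finsupp.single_eq_same]
      exact neg_le_neg h
    · rw [Finsupp.single_eq_of_ne hP,
        Finsupp.single_eq_of_ne hP]

end RepP

open RepP in
/-- B5. Every class of order `p` is described by data. -/
theorem s_rep (h1 : S_min) (h2 : S_ab) (h3 : S_bez) (h4 : S_lin) : S_rep := by
  intro k K _ _ _ _ _ _ w p hp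
  obtain ⟨r₀, hr₀⟩ := h1 k K w p (by omega)
  obtain ⟨N₀, hN₀⟩ := h2 k K w r₀
  obtain ⟨B, hB⟩ := h3 k K w
  obtain ⟨N, hN⟩ : ∃ N : ℕ, N = max N₀ r₀ + 1 := ⟨_, rfl⟩
  refine ⟨2 * (p * N) + B + p * r₀ + N, N, p * r₀, ?_⟩
  intro κ hκ
  obtain ⟨β, E, r, hr, hE0, hEw, hdeg, hord, hLL⟩ := hr₀ κ hκ
  have hE0' : ∀ v, 0 ≤ E v := fun v => hE0 v
  have hdeg' : ddeg E ≤ r₀ := by
    rw [hdeg]
    exact_mod_cast hr
  obtain ⟨a, b, ha0, hb0, hwa, hwb, hab⟩ :=
    hN₀ N (by rw [hN]; exact (le_max_left _ _).trans (Nat.le_succ _)) E hE0 hEw hdeg'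
  have hrN : r ≤ N := by
    rw [hN]
    exact hr.trans ((le_max_right _ _).trans (Nat.le_succ _))
  obtain ⟨f, hfdef⟩ : ∃ f : K, f = (κ : K) * (β : K) ^ p := ⟨_, rfl⟩
  have hf0 : f ≠ 0 := by
    rw [hfdef]
    exact mul_ne_zero κ.ne_zero (pow_ne_zero _ β.ne_zero)
  have hfv : ∀ v, v ≠ w → v.ord f = p * E v := by
    intro v hv
    rw [hfdef, hord v, Finsupp.single_eq_of_ne hv,
      sub_zero]
  have hfw : w.ord f = -((p : ℤ) * r) := by
    rw [hfdef, hord w, Finsupp.single_eq_same, hEw]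
    ring
  have hp0 : (0 : ℤ) ≤ p := Int.natCast_nonneg p
  have hN0 : (0 : ℤ) ≤ N := Int.natCast_nonneg N
  have hB0 : (0 : ℤ) ≤ B := Int.natCast_nonneg B
  have hr0 : (0 : ℤ) ≤ r := Int.natCast_nonneg r
  have hrr : (r : ℤ) ≤ r₀ := by exact_mod_cast hr
  have hrN' : (r : ℤ) ≤ N := by exact_mod_cast hrN
  have hpr : (p : ℤ) * r ≤ p * r₀ := mul_le_mul_of_nonneg_left hrr hp0
  have hpr0 : (0 : ℤ) ≤ p * r := mul_nonneg hp0 hr0
  have hpN : (0 : ℤ) ≤ p * N := mul_nonneg hp0 hN0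
  have hva : ∀ v, v ≠ w → E v ≤ v.ord a := fun v hv => by
    rw [← hab v hv]
    exact min_le_left _ _
  have hvb : ∀ v, v ≠ w → E v ≤ v.ord b := fun v hv => by
    rw [← hab v hv]
    exact min_le_right _ _
  have hcv : ∀ i j : ℕ, i + j = p → ∀ v, v ≠ w → 0 ≤ v.ord (a ^ i * b ^ j / f) := by
    intro i j hij v hv
    rw [ord_c v ha0 hb0 hf0, hfv v hv]
    have k1 : (i : ℤ) * E v ≤ i * v.ord a := mul_le_mul_of_nonneg_left (hva v hv) (Int.natCast_nonneg i)
    have k2 : (j : ℤ) * E v ≤ j * v.ord b := mul_le_mul_of_nonneg_left (hvb v hv) (Int.natCast_nonneg j)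
    have k3 : (p : ℤ) * E v = i * E v + j * E v := by
      rw [← hij]
      push_cast
      ring
    linarith
  have hcw : ∀ i j : ℕ, i + j = p → w.ord (a ^ i * b ^ j / f) = -((p : ℤ) * N) + p * r := by
    intro i j hij
    rw [ord_c w ha0 hb0 hf0, hfw, hwa, hwb, ← hij]
    push_cast
    ring
  have hc : ∀ i j : ℕ, i + j = p →
      a ^ i * b ^ j / f ∈ V w (2 * (p * N) + B + p * r₀ + N : ℤ) := by
    intro i j hij
    refine mem_V (hcv i j hij) ?_
    rw [hcw i j hij]
    linarith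
  have hmul : ∀ x : K, f * (x / f) = x := fun x => by field_simp
  have hcn : ∀ i j : ℕ, a ^ i * b ^ j / f ≠ 0 := fun i j =>
    div_ne_zero (mul_ne_zero (pow_ne_zero _ ha0) (pow_ne_zero _ hb0)) hf0
  have hcast : ((p * (N - r) : ℕ) : ℤ) = p * N - p * r := by
    rw [Nat.cast_mul, Nat.cast_sub hrN]
    ring
  obtain ⟨d0, hd0, d1, hd1, hd⟩ := hB (a ^ 0 * b ^ p / f) (a ^ p * b ^ 0 / f) (p * (N - r))
    (p * (N - r)) (hcn _ _) (hcn _ _) (by
      intro v hv
      rw [ord_c v ha0 hb0 hf0, ord_c v ha0 hb0 hf0, hfv v hv]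
      have k1 := hab v hv
      rcases le_total (v.ord a) (v.ord b) with h | h
      · rw [min_eq_left h] at k1
        have k2 : (p : ℤ) * v.ord a ≤ p * v.ord b := mul_le_mul_of_nonneg_left h hp0
        rw [k1] at k2 ⊢
        rw [min_eq_right (by push_cast; linarith)]
        push_cast
        ring
      · rw [min_eq_right h] at k1
        have k2 : (p : ℤ) * v.ord b ≤ p * v.ord a := mul_le_mul_of_nonneg_left h hp0
        rw [k1] at k2 ⊢
        rw [min_eq_left (by push_cast; linarith)]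
        push_cast
        ring)
    (by rw [hcw 0 p (zero_add p), hcast]; ring) (by rw [hcw p 0 (add_zero p), hcast]; ring)
  have hdm : ((p * (N - r) : ℕ) : ℤ) + ((p * (N - r) : ℕ) : ℤ) + B ≤
      2 * (p * N) + B + p * r₀ + N := by
    rw [hcast]
    linarith
  refine ⟨β, ?_, ?_, ?_⟩
  · rw [← hfdef]
    refine ⟨a, b, a ^ 0 * b ^ p / f, a ^ 1 * b ^ (p - 1) / f, a ^ (p - 1) * b ^ 1 / f,
      a ^ p * b ^ 0 / f, d0, d1, ?_⟩
    exact
      { f_mem := mem_V (fun v hv => by rw [hfv v hv]; exact mul_nonneg hp0 (hE0' v))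
          (by rw [hfw]; linarith)
        a_mem := mem_V (fun v hv => (hE0' v).trans (hva v hv)) (by rw [hwa]; linarith)
        b_mem := mem_V (fun v hv => (hE0' v).trans (hvb v hv)) (by rw [hwb]; linarith)
        c0_mem := hc 0 p (zero_add p)
        c1_mem := hc 1 (p - 1) (by omega)
        c2_mem := hc (p - 1) 1 (by omega)
        c3_mem := hc p 0 (add_zero p)
        d0_mem := V_mono hdm hd0
        d1_mem := V_mono hdm hd1
        a_ne := ha0
        b_ne := hb0
        e0 := by rw [hmul, pow_zero, one_mul]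
        e1 := by rw [hmul, pow_one]
        e2 := by rw [hmul, pow_one]
        e3 := by rw [hmul, pow_zero, mul_one]
        bez := hd
        ord_a := hwa
        ord_b := hwb
        lin := h4 k K w N E a b ha0 hb0 hwa hwb hab hEw hLL }
  · rw [← hfdef, hfw]
    linarith
  · rw [← hfdef, hfw]
    linarith

end Pool.Agent.NH7.FT
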