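import Pool.Agent.NH7.FT.Defs
import Pool.Agent.Helper386.D5V.Helper386_FF_Fund

/-!
# FT7-C2: the places of the compositum
-/

set_option autoImplicit false
set_option linter.unusedSectionVars false

namespace Pool.Agent.NH7.FT

open FF (Place IsFF)

namespace ResP

variable {k K : Type} [Field k] [Field K] [Algebra k K]

lemma incl_coe (x : K) : ((incl k K x : Kb k K) : AlgebraicClosure K) =
    algebraMap K (AlgebraicClosure K) x := rfl

lemma incl_inj : Function.Injective (incl k K) := (incl k K).injective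

/-- the constants -/
lemma incl_const (c : k) : incl k K (algebraMap k K c) =
    algebraMap (kb k K) (Kb k K) (algebraMap k (kb k K) c) := by
  refine Subtype.ext ?_
  rw [incl_coe, ← IsScalarTower.algebraMap_apply k K (AlgebraicClosure K)]
  rfl

/-- some function has a nonzero value -/
lemma exists_ord (v' : Place (kb k K) (Kb k K)) : ∃ x : K, x ≠ 0 ∧ v'.ord (incl k K x) ≠ 0 := by
  by_contra hcon
  push Not at hcon
  let _ : Algebra K (Kb k K) := (incl k K).toAlgebra
  have hreg : ∀ x : K, v'.Reg (algebraMap K (Kb k K) x) := by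
    intro x
    by_cases hx : x = 0
    · left
      rw [hx, map_zero]
    · right
      exact (hcon x hx).ge
  obtain ⟨t, ht0, ht⟩ := v'.surj
  have hint : IsIntegral K (t⁻¹) := by
    have h1 : IsIntegral K (((t⁻¹ : Kb k K)) : AlgebraicClosure K) :=
      (Algebra.IsAlgebraic.isAlgebraic (R := K) (((t⁻¹ : Kb k K)) : AlgebraicClosure K)).isIntegral
    obtain ⟨p, hp, hp0⟩ := h1
    refine ⟨p, hp, ?_⟩
    apply Subtype.ext
    have h2 := Polynomial.hom_eval₂ p (algebraMap K (Kb k K))
      (algebraMap (Kb k K) (AlgebraicClosure K)) t⁻¹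
    have h3 : (algebraMap (Kb k K) (AlgebraicClosure K)).comp (algebraMap K (Kb k K)) =
        algebraMap K (AlgebraicClosure K) := RingHom.ext fun x => rfl
    rw [h3] at h2
    exact h2.trans hp0
  have h := v'.reg_of_isIntegral (A := K) hreg hint
  rw [v'.reg_iff (inv_ne_zero ht0), v'.ord_inv, ht] at h
  omega

/-- the image of the values -/
lemma exists_e (v' : Place (kb k K) (Kb k K)) : ∃ (e : ℕ) (x₀ : K), 0 < e ∧ x₀ ≠ 0 ∧
    v'.ord (incl k K x₀) = e ∧ ∀ x : K, (e : ℤ) ∣ v'.ord (incl k K x) := by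
  classical
  have hne : ∀ {x : K}, x ≠ 0 → incl k K x ≠ 0 := fun hx h =>
    hx (incl_inj (by rw [h, map_zero]))
  have hex : ∃ n : ℕ, 0 < n ∧ ∃ x : K, x ≠ 0 ∧ v'.ord (incl k K x) = n := by
    obtain ⟨x, hx, h⟩ := exists_ord v'
    rcases lt_or_gt_of_ne h with h1 | h1
    · refine ⟨(-(v'.ord (incl k K x))).toNat, by omega, x⁻¹, inv_ne_zero hx, ?_⟩
      rw [map_inv₀, v'.ord_inv]
      omega
    · exact ⟨(v'.ord (incl k K x)).toNat, by omega, x, hx, by omega⟩
  obtain ⟨he, x₀, hx₀, h₀⟩ := Nat.find_spec hex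
  set e := Nat.find hex with hed
  refine ⟨e, x₀, he, hx₀, h₀, fun x => ?_⟩
  by_cases hx : x = 0
  · rw [hx, map_zero, v'.ord_zero]
    exact dvd_zero _
  set n := v'.ord (incl k K x) with hn
  have heZ : (0 : ℤ) < e := by exact_mod_cast he
  have h1 : v'.ord (incl k K (x * x₀ ^ (-(n / e)))) = n % e := by
    rw [map_mul, map_zpow₀, v'.ord_mul (hne hx) (zpow_ne_zero _ (hne hx₀)), v'.ord_zpow, h₀, ← hn]
    have := Int.emod_add_mul_ediv n e
    linarith
  have h2 := Int.emod_nonneg n heZ.ne'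
  have h3 := Int.emod_lt_of_pos n heZ
  rcases h2.lt_or_eq with h4 | h4
  · exfalso
    refine Nat.find_min hex (m := (n % e).toNat) (by rw [← hed]; omega)
      ⟨by omega, x * x₀ ^ (-(n / e)), mul_ne_zero hx (zpow_ne_zero _ hx₀), ?_⟩
    rw [h1]
    omega
  · exact Int.dvd_of_emod_eq_zero h4.symm

end ResP

open ResP in
theorem s_res : S_res := by
  intro k K _ _ _ _ _ v'
  obtain ⟨e, x₀, he, hx₀, h₀, hdvd⟩ := exists_e v'
  have heZ : (0 : ℤ) < e := by exact_mod_cast he
  have hne : ∀ {x : K}, x ≠ 0 → incl k K x ≠ 0 := fun hx h =>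
    hx (incl_inj (by rw [h, map_zero]))
  have hmul : ∀ x : K, (e : ℤ) * (v'.ord (incl k K x) / e) = v'.ord (incl k K x) := fun x =>
    Int.mul_ediv_cancel' (hdvd x)
  refine ⟨{ ord := fun x => v'.ord (incl k K x) / e
            ord_zero := ?_
            ord_mul := ?_
            ord_add := ?_
            ord_const := ?_
            surj := ?_ }, e, heZ, fun x => (hmul x).symm⟩
  · rw [map_zero, v'.ord_zero, Int.zero_ediv]
  · intro f g hf hg
    have h1 := v'.ord_mul (hne hf) (hne hg)
    rw [← map_mul, ← hmul (f * g), ← hmul f, ← hmul g, ← mul_add] at h1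
    exact mul_left_cancel₀ heZ.ne' h1
  · intro f g hf hg hfg
    have h1 := v'.ord_add (hne hf) (hne hg) (by rw [← map_add]; exact hne hfg)
    rw [← map_add, ← hmul (f + g), ← hmul f, ← hmul g, ← mul_min_of_nonneg _ _ heZ.le] at h1
    exact le_of_mul_le_mul_left h1 heZ
  · intro c hc
    have h1 : v'.ord (incl k K (algebraMap k K c)) = 0 := by
      rw [incl_const]
      refine v'.ord_const ?_
      intro h
      exact hc ((algebraMap k (kb k K)).injective (by rw [h, map_zero]))
    rw [h1, Int.zero_ediv]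
  · refine ⟨x₀, hx₀, ?_⟩
    rw [h₀]
    exact Int.ediv_self heZ.ne'

end Pool.Agent.NH7.FT
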