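import Pool.Agent.NH7.FT.Defs
import Pool.Agent.Helper386.D5V.Helper386_FF_Fund

/-! The places of the compositum. -/

set_option autoImplicit false

namespace Pool.Agent.NH7.FT.V2

open FF (Place IsFF)

variable {k K : Type} [Field k] [Field K] [Algebra k K]

theorem coe_incl (x : K) : ((incl k K x : Kb k K) : AlgebraicClosure K) =
    algebraMap K (AlgebraicClosure K) x := rfl

theorem incl_ne {x : K} (hx : x ≠ 0) : incl k K x ≠ 0 := by
  intro h
  exact hx ((map_eq_zero (incl k K)).1 h)

theorem incl_const (c : k) : incl k K (algebraMap k K c) =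
    algebraMap (kb k K) (Kb k K) (algebraMap k (kb k K) c) := by
  apply Subtype.ext
  rw [coe_incl, ← IsScalarTower.algebraMap_apply k K (AlgebraicClosure K)]
  rfl

theorem integral (y : Kb k K) : (incl k K).IsIntegralElem y := by
  obtain ⟨f, hf, h⟩ := (Algebra.IsIntegral.isIntegral (R := K) (y : AlgebraicClosure K))
  refine ⟨f, hf, ?_⟩
  apply Subtype.ext
  have h1 : ((Polynomial.eval₂ (incl k K) y f : Kb k K) : AlgebraicClosure K) =
      Polynomial.eval₂ ((algebraMap (Kb k K) (AlgebraicClosure K)).comp (incl k K))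
        (algebraMap (Kb k K) (AlgebraicClosure K) y) f :=
    Polynomial.hom_eval₂ f (incl k K) (algebraMap (Kb k K) (AlgebraicClosure K)) y
  rw [h1]
  exact h

theorem exists_ne (v' : Place (kb k K) (Kb k K)) : ∃ x : K, x ≠ 0 ∧ 0 < v'.ord (incl k K x) := by
  by_contra hcon
  push Not at hcon
  have h0 : ∀ x : K, v'.Reg (incl k K x) := by
    intro x
    by_cases hx : x = 0
    · left
      rw [hx, map_zero]
    · right
      have h := hcon x⁻¹ (inv_ne_zero hx)
      rw [map_inv₀, v'.ord_inv] at h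
      omega
  have hreg : ∀ y : Kb k K, v'.Reg y := by
    intro y
    let _ := (incl k K).toAlgebra
    exact v'.reg_of_isIntegral (A := K) h0 (integral y)
  obtain ⟨t, ht, ht1⟩ := v'.surj
  have h2 := (v'.reg_iff (inv_ne_zero ht)).1 (hreg t⁻¹)
  rw [v'.ord_inv] at h2
  omega

theorem s_res : S_res := by
  intro k K _ _ _ _ _ v'
  classical
  have hex : ∃ n : ℕ, 0 < n ∧ ∃ x : K, x ≠ 0 ∧ v'.ord (incl k K x) = n := by
    obtain ⟨x, hx, h⟩ := exists_ne v'
    exact ⟨(v'.ord (incl k K x)).toNat, by omega, x, hx, by omega⟩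
  obtain ⟨he, t, ht, hte⟩ := Nat.find_spec hex
  have hmin : ∀ n : ℕ, 0 < n → (∃ x : K, x ≠ 0 ∧ v'.ord (incl k K x) = n) → Nat.find hex ≤ n :=
    fun n h1 h2 => Nat.find_min' hex ⟨h1, h2⟩
  generalize Nat.find hex = e at he hte hmin
  have he' : (0 : ℤ) < e := by exact_mod_cast he
  have hdvd : ∀ x : K, x ≠ 0 → (e : ℤ) ∣ v'.ord (incl k K x) := by
    intro x hx
    rw [Int.dvd_iff_emod_eq_zero]
    by_contra hne
    have h1 : 0 ≤ v'.ord (incl k K x) % e := Int.emod_nonneg _ he'.ne'
    have h2 : v'.ord (incl k K x) % e < e := Int.emod_lt_of_pos _ he'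
    have h3 : v'.ord (incl k K (x * t ^ (-(v'.ord (incl k K x) / e)))) =
        v'.ord (incl k K x) % e := by
      rw [map_mul, map_zpow₀, v'.ord_mul (incl_ne hx) (zpow_ne_zero _ (incl_ne ht)), v'.ord_zpow,
        hte]
      have := Int.emod_add_mul_ediv (v'.ord (incl k K x)) e
      linarith
    have h4 := hmin (v'.ord (incl k K x) % e).toNat (by omega)
      ⟨x * t ^ (-(v'.ord (incl k K x) / e)), mul_ne_zero hx (zpow_ne_zero _ ht), by
        rw [h3]
        omega⟩
    omega
  have hdiv : ∀ x : K, v'.ord (incl k K x) = e * (v'.ord (incl k K x) / e) := by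
    intro x
    by_cases hx : x = 0
    · rw [hx, map_zero, v'.ord_zero, Int.zero_ediv, mul_zero]
    · exact (Int.mul_ediv_cancel' (hdvd x hx)).symm
  refine ⟨{ ord := fun x => v'.ord (incl k K x) / e
            ord_zero := ?_
            ord_mul := ?_
            ord_add := ?_
            ord_const := ?_
            surj := ?_ }, e, he', hdiv⟩
  · rw [map_zero, v'.ord_zero, Int.zero_ediv]
  · intro f g hf hg
    have h := v'.ord_mul (incl_ne (k := k) hf) (incl_ne (k := k) hg)
    rw [← map_mul, hdiv (f * g), hdiv f, hdiv g, ← mul_add] at h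
    exact mul_left_cancel₀ he'.ne' h
  · intro f g hf hg hfg
    have hfg' : incl k K f + incl k K g ≠ 0 := by
      rw [← map_add]
      exact incl_ne hfg
    have h := v'.ord_add (incl_ne (k := k) hf) (incl_ne (k := k) hg) hfg'
    rw [← map_add, hdiv (f + g), hdiv f, hdiv g] at h
    rcases min_le_iff.1 h with h1 | h1
    · exact (min_le_left _ _).trans (le_of_mul_le_mul_left h1 he')
    · exact (min_le_right _ _).trans (le_of_mul_le_mul_left h1 he')
  · intro c hc
    have h1 : v'.ord (incl k K (algebraMap k K c)) = 0 := by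
      rw [incl_const]
      exact v'.ord_const ((map_ne_zero _).2 hc)
    rw [h1, Int.zero_ediv]
  · exact ⟨t, ht, by rw [hte, Int.ediv_self he'.ne']⟩

end Pool.Agent.NH7.FT.V2
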