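import Mathlib

/-!
Algebra for the finiteness of the data: derivations of tensor products.
-/

set_option autoImplicit false

namespace Pool.Agent.NH7.FT.UltraPA

open scoped TensorProduct

theorem alg {A S : Type*} [CommRing A] [CommRing S] [Algebra A S] (D : Derivation A S S)
    {f a b c0 c1 c2 c3 d0 d1 : S} {p : ℕ} (hp : 2 ≤ p) (e0 : f * c0 = b ^ p)
    (e1 : f * c1 = a * b ^ (p - 1)) (e2 : f * c2 = a ^ (p - 1) * b) (e3 : f * c3 = a ^ p)
    (bez : d0 * c0 + d1 * c3 = 1) :
    ∃ u u' : S, a * D f = f * u ∧ b * D f = f * u' := by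
  have h0 : D f * c0 + f * D c0 = p * b ^ (p - 1) * D b := by
    have h := congrArg D e0
    rw [D.leibniz, D.leibniz_pow] at h
    simp only [smul_eq_mul, nsmul_eq_mul] at h
    linear_combination h
  have h3 : D f * c3 + f * D c3 = p * a ^ (p - 1) * D a := by
    have h := congrArg D e3
    rw [D.leibniz, D.leibniz_pow] at h
    simp only [smul_eq_mul, nsmul_eq_mul] at h
    linear_combination h
  have ha : a * a ^ (p - 1) = a ^ p := mul_pow_sub_one (by omega) a
  have hb : b * b ^ (p - 1) = b ^ p := mul_pow_sub_one (by omega) b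
  refine ⟨d1 * (p * c3 * D a - a * D c3) + d0 * (p * c1 * D b - a * D c0),
    d1 * (p * c2 * D a - b * D c3) + d0 * (p * c0 * D b - b * D c0), ?_, ?_⟩
  · linear_combination (-(a * D f)) * bez + d0 * (a * h0 - p * D b * e1) +
      d1 * (a * h3 + p * D a * ha - p * D a * e3)
  · linear_combination (-(b * D f)) * bez + d0 * (b * h0 + p * D b * hb - p * D b * e0) +
      d1 * (b * h3 - p * D a * e2)

section

variable {k L R : Type*} [Field k] [Field L] [Algebra k L] [CommRing R] [Algebra k R]

theorem ext_leibniz (δ : Derivation k L L) (u v : L ⊗[k] R) :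
    (δ : L →ₗ[k] L).rTensor R (u * v) =
      u • (δ : L →ₗ[k] L).rTensor R v + v • (δ : L →ₗ[k] L).rTensor R u := by
  simp only [smul_eq_mul]
  induction u using TensorProduct.induction_on with
  | zero => simp
  | add x y hx hy =>
    rw [add_mul, map_add, hx, hy, map_add]
    ring
  | tmul x r =>
    induction v using TensorProduct.induction_on with
    | zero => simp
    | add y z hy hz =>
      rw [mul_add, map_add, hy, hz, map_add]
      ring
    | tmul y s =>
      rw [Algebra.TensorProduct.tmul_mul_tmul, LinearMap.rTensor_tmul, LinearMap.rTensor_tmul,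
        LinearMap.rTensor_tmul, Algebra.TensorProduct.tmul_mul_tmul,
        Algebra.TensorProduct.tmul_mul_tmul]
      have h : (δ : L →ₗ[k] L) (x * y) = x * (δ : L →ₗ[k] L) y + y * (δ : L →ₗ[k] L) x := by
        show δ (x * y) = x * δ y + y * δ x
        rw [δ.leibniz]
        rfl
      rw [h, TensorProduct.add_tmul, mul_comm s r]

/-- the extension of a derivation -/
noncomputable def ext (δ : Derivation k L L) : Derivation k (L ⊗[k] R) (L ⊗[k] R) :=
  Derivation.mk' ((δ : L →ₗ[k] L).rTensor R) (ext_leibniz δ)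

theorem ext_tmul (δ : Derivation k L L) (x : L) (r : R) :
    ext δ (x ⊗ₜ[k] r) = δ x ⊗ₜ[k] r := rfl

theorem ext_mem (δ : Derivation k L L) (W : Submodule k R) {u : L ⊗[k] R}
    (hu : u ∈ W.baseChange L) : ext δ u ∈ W.baseChange L := by
  obtain ⟨t, rfl⟩ := hu
  induction t using TensorProduct.induction_on with
  | zero => simp
  | tmul x r =>
    rw [LinearMap.baseChange_tmul, ext_tmul]
    exact Submodule.tmul_mem_baseChange_of_mem _ r.2
  | add x y hx hy =>
    rw [map_add, map_add]
    exact add_mem hx hy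

theorem ext_repr {ι : Type*} (B : Module.Basis ι k R) (δ : Derivation k L L) (v : L ⊗[k] R)
    (j : ι) : (Algebra.TensorProduct.basis L B).repr (ext δ v) j =
      δ ((Algebra.TensorProduct.basis L B).repr v j) := by
  induction v using TensorProduct.induction_on with
  | zero => simp
  | add x y hx hy =>
    rw [map_add, map_add, map_add, Finsupp.add_apply, Finsupp.add_apply, map_add, hx, hy]
  | tmul x r =>
    rw [ext_tmul, Algebra.TensorProduct.basis_repr_tmul, Algebra.TensorProduct.basis_repr_tmul,
      Finsupp.smul_apply, Finsupp.smul_apply, Finsupp.mapRange_apply, smul_eq_mul, smul_eq_mul,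
      δ.leibniz, δ.map_algebraMap, smul_zero, zero_add, smul_eq_mul, mul_comm]

theorem const_of [IsAlgClosed k] (h1 : ∀ x : L, Transcendental k x → ∃ δ : Derivation k L L, δ x ≠ 0)
    {u : L ⊗[k] R} (hu : ∀ δ : Derivation k L L, ext δ u = 0) : ∃ r : R, u = 1 ⊗ₜ[k] r := by
  let B := Module.Basis.ofVectorSpace k R
  let BL := Algebra.TensorProduct.basis L B
  have h2 : ∀ j, ∃ c : k, algebraMap k L c = BL.repr u j := by
    intro j
    have h3 : ¬ Transcendental k (BL.repr u j) := by
      intro h4
      obtain ⟨δ, hδ⟩ := h1 _ h4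
      apply hδ
      rw [← ext_repr B δ u j, hu δ, map_zero, Finsupp.zero_apply]
    have h4 : IsIntegral k (BL.repr u j) := by
      rw [Transcendental, not_not] at h3
      exact h3.isIntegral
    have h5 := IsAlgClosed.degree_eq_one_of_irreducible k (minpoly.irreducible h4)
    exact minpoly.degree_eq_one_iff.1 h5
  have h6 : u ∈ LinearMap.range (TensorProduct.mk k L R 1) := by
    rw [← BL.linearCombination_repr u, Finsupp.linearCombination_apply, Finsupp.sum]
    refine sum_mem fun j _ => ?_
    obtain ⟨c, hc⟩ := h2 j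
    refine ⟨c • B j, ?_⟩
    have h7 : BL j = 1 ⊗ₜ[k] B j := Algebra.TensorProduct.basis_apply B j
    rw [h7, ← hc, TensorProduct.mk_apply, TensorProduct.tmul_smul, algebraMap_smul]
  obtain ⟨r, hr⟩ := h6
  exact ⟨r, hr.symm⟩

end

end Pool.Agent.NH7.FT.UltraPA
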