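import Pool.Agent.NH7.FT.Defs
import Pool.Agent.NH7.FT.UltraPA

/-!
A3. Finiteness for the data, by ultraproducts and derivations.
-/

set_option autoImplicit false
set_option linter.unusedSectionVars false

namespace Pool.Agent.NH7.FT

open Pool.Agent.H525R3.FFp Filter
open FF (Place IsFF)
open scoped TensorProduct

namespace UltraP

variable {k K : Type} [Field k] [Field K] [Algebra k K]

theorem V_Rw {w : Place k K} {M : ℤ} {x : K} (hx : x ∈ V w M) : x ∈ Rw w := by
  intro v hv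
  have hx' : x = 0 ∨ ∀ P : Place k K, -(Finsupp.single w M) P ≤ P.ord x := hx
  rcases hx' with rfl | h
  · rw [v.ord_zero]
  · have h1 := h v
    rw [Finsupp.single_eq_of_ne hv] at h1
    simpa using h1

theorem mem_V {w : Place k K} {M : ℤ} {x : K} (h : x ∈ Rw w) (h2 : -M ≤ w.ord x) :
    x ∈ V w M := by
  refine Or.inr fun v => ?_
  by_cases hv : v = w
  · subst hv
    rw [Finsupp.single_eq_same]
    exact h2
  · rw [Finsupp.single_eq_of_ne hv]
    simpa using h v hv

theorem V_ord {w : Place k K} {M : ℤ} {x : K} (hx : x ∈ V w M) (h0 : x ≠ 0) :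
    -M ≤ w.ord x := by
  have hx' : x = 0 ∨ ∀ P : Place k K, -(Finsupp.single w M) P ≤ P.ord x := hx
  rcases hx' with h | h
  · exact absurd h h0
  · have h1 := h w
    rwa [Finsupp.single_eq_same] at h1

/-- the same space inside the ring -/
noncomputable def WW (w : Place k K) (M : ℤ) : Submodule k (Rw w) :=
  (V w M).comap (Rw w).val.toLinearMap

theorem fin_WW [CharZero k] [IsFF k K] (w : Place k K) (M : ℤ) :
    FiniteDimensional k (WW w M) := by
  let φ : WW w M →ₗ[k] V w M :=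
    LinearMap.codRestrict (V w M) ((Rw w).val.toLinearMap.comp (WW w M).subtype) (fun x => x.2)
  refine FiniteDimensional.of_injective φ fun x y h => ?_
  apply Subtype.ext
  apply Subtype.ext
  exact congrArg (fun z : V w M => (z : K)) h

theorem point {w : Place k K} {p : ℕ} {M N q : ℤ} {f a b c0 c1 c2 c3 d0 d1 : K}
    (hd : IsDat w p M N f a b c0 c1 c2 c3 d0 d1) (hq : w.ord f = -q) {y u u' : K}
    (hy : y ∈ V w (q - 1)) (hu : u ∈ Rw w) (hu' : u' ∈ Rw w) (e : a * y = f * u)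
    (e' : b * y = f * u') : y = 0 := by
  by_contra hy0
  have hf0 : f ≠ 0 := by
    rintro rfl
    have h := hd.e0
    rw [zero_mul] at h
    exact pow_ne_zero p hd.b_ne h.symm
  have hu0 : u ≠ 0 := by
    rintro rfl
    rw [mul_zero] at e
    exact (mul_ne_zero hd.a_ne hy0) e
  have hu0' : u' ≠ 0 := by
    rintro rfl
    rw [mul_zero] at e'
    exact (mul_ne_zero hd.b_ne hy0) e'
  have oy := V_ord hy hy0
  have o1 : w.ord a + w.ord y = w.ord f + w.ord u := by
    rw [← w.ord_mul hd.a_ne hy0, ← w.ord_mul hf0 hu0, e]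
  have o2 : w.ord b + w.ord y = w.ord f + w.ord u' := by
    rw [← w.ord_mul hd.b_ne hy0, ← w.ord_mul hf0 hu0', e']
  rw [hd.ord_a, hq] at o1
  rw [hd.ord_b, hq] at o2
  have m1 : u ∈ V w (N - 1) := mem_V hu (by omega)
  have m2 : u' ∈ V w (N - 1) := mem_V hu' (by omega)
  have h : u * b = u' * a := by
    apply mul_left_cancel₀ hf0
    calc f * (u * b) = (f * u) * b := by ring
      _ = (a * y) * b := by rw [e]
      _ = (b * y) * a := by ring
      _ = (f * u') * a := by rw [e']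
      _ = f * (u' * a) := by ring
  exact hu0 (hd.lin u m1 u' m2 h)

end UltraP

open UltraP in
/-- A3. -/
theorem s_ultra (h1 : S_derx) (h2 : S_grm) : S_ultra := by
  intro k K _ _ _ _ _ _ w p hp M N q g hg0 hg hgo
  by_contra hinf
  have hinf' : Set.Infinite {f : K | Has w p M N f ∧ w.ord f = -q ∧ f - g ∈ V w (q - 1)} := hinf
  let em := hinf'.natEmbedding
  obtain ⟨f, hfe⟩ : ∃ f : ℕ → K, ∀ n, f n = (em n : K) := ⟨_, fun _ => rfl⟩
  have hfinj : Function.Injective f := fun m n h => by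
    apply em.injective
    apply Subtype.ext
    rw [← hfe, ← hfe, h]
  have hf1 : ∀ n, ∃ a b c0 c1 c2 c3 d0 d1 : K, IsDat w p M N (f n) a b c0 c1 c2 c3 d0 d1 := by
    intro n
    rw [hfe]
    exact (em n).2.1
  have hf2 : ∀ n, w.ord (f n) = -q := by
    intro n
    rw [hfe]
    exact (em n).2.2.1
  have hf3 : ∀ n, f n - g ∈ V w (q - 1) := by
    intro n
    rw [hfe]
    exact (em n).2.2.2
  choose a b c0 c1 c2 c3 d0 d1 hd using hf1
  obtain ⟨k₁, F, i1, i2, i3, 𝒰, μ, G, hμ, hU, hG, hr, hlift, hdown⟩ := h2 k K (Rw w)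
  have lift : ∀ (M' : ℤ) (x : ℕ → K), (∀ n, x n ∈ V w M') →
      ∃ u ∈ (WW w M').baseChange k₁, μ u = G x := by
    intro M' x hx
    obtain ⟨u, hu, hu2⟩ := hlift (WW w M') (fin_WW w M') (fun n => ⟨x n, V_Rw (hx n)⟩)
      (fun n => hx n)
    exact ⟨u, hu, hu2⟩
  obtain ⟨hh, hhW, hhe⟩ := lift (q - 1) (fun n => f n - g) hf3
  obtain ⟨A, -, hA⟩ := lift M a (fun n => (hd n).a_mem)
  obtain ⟨B, -, hB⟩ := lift M b (fun n => (hd n).b_mem)
  obtain ⟨C0, -, hC0⟩ := lift M c0 (fun n => (hd n).c0_mem)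
  obtain ⟨C1, -, hC1⟩ := lift M c1 (fun n => (hd n).c1_mem)
  obtain ⟨C2, -, hC2⟩ := lift M c2 (fun n => (hd n).c2_mem)
  obtain ⟨C3, -, hC3⟩ := lift M c3 (fun n => (hd n).c3_mem)
  obtain ⟨D0, -, hD0⟩ := lift M d0 (fun n => (hd n).d0_mem)
  obtain ⟨D1, -, hD1⟩ := lift M d1 (fun n => (hd n).d1_mem)
  obtain ⟨g', hg'⟩ : ∃ g' : Rw w, (g' : K) = g := ⟨⟨g, V_Rw hg⟩, rfl⟩
  obtain ⟨fh, hfh⟩ : ∃ fh : k₁ ⊗[k] Rw w, fh = hh + 1 ⊗ₜ[k] g' := ⟨_, rfl⟩
  have hF : μ fh = G f := by
    rw [hfh, map_add, hhe, hr, ← map_add]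
    congr 1
    funext n
    show f n - g + (g' : K) = f n
    rw [hg', sub_add_cancel]
  have E0 : fh * C0 = B ^ p := by
    apply hμ
    rw [map_mul, map_pow, hF, hC0, hB, ← map_mul, ← map_pow]
    congr 1
    funext n
    exact (hd n).e0
  have E1 : fh * C1 = A * B ^ (p - 1) := by
    apply hμ
    rw [map_mul, map_mul, map_pow, hF, hC1, hA, hB, ← map_mul, ← map_pow, ← map_mul]
    congr 1
    funext n
    exact (hd n).e1
  have E2 : fh * C2 = A ^ (p - 1) * B := by
    apply hμ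
    rw [map_mul, map_mul, map_pow, hF, hC2, hA, hB, ← map_mul, ← map_pow, ← map_mul]
    congr 1
    funext n
    exact (hd n).e2
  have E3 : fh * C3 = A ^ p := by
    apply hμ
    rw [map_mul, map_pow, hF, hC3, hA, ← map_mul, ← map_pow]
    congr 1
    funext n
    exact (hd n).e3
  have BZ : D0 * C0 + D1 * C3 = 1 := by
    apply hμ
    rw [map_add, map_mul, map_mul, hD0, hC0, hD1, hC3, ← map_mul, ← map_mul, ← map_add, map_one,
      ← map_one G]
    congr 1
    funext n
    exact (hd n).bez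
  have key : ∀ δ : Derivation k k₁ k₁, UltraPA.ext δ fh = 0 := by
    intro δ
    obtain ⟨u, u', hu, hu'⟩ := UltraPA.alg (UltraPA.ext δ) hp E0 E1 E2 E3 BZ
    have hy : UltraPA.ext δ fh ∈ (WW w (q - 1)).baseChange k₁ := by
      have h3 : UltraPA.ext δ fh = UltraPA.ext δ hh := by
        rw [hfh, map_add, UltraPA.ext_tmul, δ.map_one_eq_zero, TensorProduct.zero_tmul, add_zero]
      rw [h3]
      exact UltraPA.ext_mem δ _ hhW
    obtain ⟨y, hyW, hye⟩ := hdown _ _ hy
    obtain ⟨x, -, hxe⟩ := hdown ⊤ u (by rw [Submodule.baseChange_top]; trivial)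
    obtain ⟨x', -, hxe'⟩ := hdown ⊤ u' (by rw [Submodule.baseChange_top]; trivial)
    have q1 : G (fun n => a n * (y n : K)) = G (fun n => f n * (x n : K)) := by
      have h3 := congrArg μ hu
      rw [map_mul, map_mul, hA, hye, hF, hxe, ← map_mul, ← map_mul] at h3
      exact h3
    have q2 : G (fun n => b n * (y n : K)) = G (fun n => f n * (x' n : K)) := by
      have h3 := congrArg μ hu'
      rw [map_mul, map_mul, hB, hye, hF, hxe', ← map_mul, ← map_mul] at h3
      exact h3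
    have q3 := (hG _ _).1 q1
    have q4 := (hG _ _).1 q2
    have q5 : G (fun n => (y n : K)) = G 0 := by
      rw [hG]
      filter_upwards [q3, q4] with n h3 h4
      exact point (hd n) (hf2 n) (hyW n) (x n).2 (x' n).2 h3 h4
    apply hμ
    rw [hye, q5, map_zero, map_zero]
  obtain ⟨r, hr'⟩ := UltraPA.const_of (fun x hx => h1 k k₁ x hx) key
  have q6 : G f = G fun _ => (r : K) := by rw [← hF, hr', hr]
  have q7 := (hG _ _).1 q6
  obtain ⟨n₀, hn₀⟩ := q7.exists
  apply hU n₀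
  have q8 : {n₀} ∈ (𝒰 : Filter ℕ) := by
    refine mem_of_superset q7 ?_
    intro n hn
    exact hfinj (hn.trans hn₀.symm)
  exact q8

end Pool.Agent.NH7.FT
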