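import Pool.Agent.NH7.FT.Defs

/-!
# Finiteness for the data

The proof of `S_ultra` by ultraproducts and derivations.
-/

set_option autoImplicit false

namespace Pool.Agent.NH7.FT.V2

open Pool.Agent.H525R3.FFp Filter
open FF (Place IsFF)
open Pool.Agent.NH7.FT
open scoped TensorProduct

section tens

variable {k k₁ R : Type} [Field k] [Field k₁] [Algebra k k₁] [CommRing R] [Algebra k R]

/-- the derivation `δ ⊗ id` -/
noncomputable def DD (δ : Derivation k k₁ k₁) : Derivation k (k₁ ⊗[k] R) (k₁ ⊗[k] R) :=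
  Derivation.mk' (LinearMap.rTensor R (δ : k₁ →ₗ[k] k₁)) (by
    intro u v
    induction u using TensorProduct.induction_on with
    | zero => simp
    | add x y hx hy =>
      rw [add_mul, map_add, hx, hy, map_add]
      simp only [smul_eq_mul]
      ring
    | tmul x r =>
      induction v using TensorProduct.induction_on with
      | zero => simp
      | add y z hy hz =>
        rw [mul_add, map_add, hy, hz, map_add]
        simp only [smul_eq_mul]
        ring
      | tmul y s =>
        rw [Algebra.TensorProduct.tmul_mul_tmul, LinearMap.rTensor_tmul, LinearMap.rTensor_tmul,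
          LinearMap.rTensor_tmul, smul_eq_mul, smul_eq_mul, Algebra.TensorProduct.tmul_mul_tmul,
          Algebra.TensorProduct.tmul_mul_tmul, mul_comm s r, ← TensorProduct.add_tmul]
        congr 1
        exact δ.leibniz x y)

theorem DD_tmul (δ : Derivation k k₁ k₁) (x : k₁) (r : R) :
    DD δ (x ⊗ₜ[k] r) = δ x ⊗ₜ[k] r := rfl

theorem DD_const (δ : Derivation k k₁ k₁) (r : R) : DD δ ((1 : k₁) ⊗ₜ[k] r) = 0 := by
  rw [DD_tmul, Derivation.map_one_eq_zero, TensorProduct.zero_tmul]

theorem DD_smul (δ : Derivation k k₁ k₁) (c : k₁) (u : k₁ ⊗[k] R) :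
    DD δ (c • u) = c • DD δ u + δ c • u := by
  induction u using TensorProduct.induction_on with
  | zero => simp
  | tmul x r =>
    rw [TensorProduct.smul_tmul', DD_tmul, DD_tmul, TensorProduct.smul_tmul',
      TensorProduct.smul_tmul', ← TensorProduct.add_tmul]
    congr 1
    simp only [smul_eq_mul]
    rw [δ.leibniz, smul_eq_mul, smul_eq_mul, mul_comm x]
  | add x y hx hy => rw [smul_add, map_add, hx, hy, map_add, smul_add, smul_add]; abel

theorem DD_mem (δ : Derivation k k₁ k₁) (W : Submodule k R) (u : k₁ ⊗[k] R)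
    (hu : u ∈ W.baseChange k₁) : DD δ u ∈ W.baseChange k₁ := by
  rw [Submodule.baseChange_eq_span] at hu ⊢
  induction hu using Submodule.span_induction with
  | mem x hx =>
    obtain ⟨m, hm, rfl⟩ := hx
    rw [TensorProduct.mk_apply, DD_const]
    exact zero_mem _
  | zero => rw [map_zero]; exact zero_mem _
  | add x y _ _ hx hy => rw [map_add]; exact add_mem hx hy
  | smul c x hx' hx =>
    rw [DD_smul]
    exact add_mem (Submodule.smul_mem _ _ hx) (Submodule.smul_mem _ _ hx')

theorem const_of_DD [IsAlgClosed k]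
    (h1 : ∀ x : k₁, Transcendental k x → ∃ δ : Derivation k k₁ k₁, δ x ≠ 0)
    (u : k₁ ⊗[k] R) (hu : ∀ δ : Derivation k k₁ k₁, DD δ u = 0) : ∃ r : R, u = 1 ⊗ₜ[k] r := by
  classical
  let B := Module.Basis.ofVectorSpace k R
  let B₁ := Algebra.TensorProduct.basis k₁ B
  have hrep : ∀ (δ : Derivation k k₁ k₁) (v : k₁ ⊗[k] R) j,
      B₁.repr (DD δ v) j = δ (B₁.repr v j) := by
    intro δ v j
    induction v using TensorProduct.induction_on with
    | zero => simp
    | tmul x r =>
      rw [DD_tmul, Algebra.TensorProduct.basis_repr_tmul, Algebra.TensorProduct.basis_repr_tmul]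
      simp only [Finsupp.smul_apply, Finsupp.mapRange_apply, smul_eq_mul, Derivation.leibniz,
        Derivation.map_algebraMap, zero_add, mul_zero]
      ring
    | add x y hx hy => simp only [map_add, Finsupp.add_apply, hx, hy]
  have hc : ∀ j, ∃ c : k, algebraMap k k₁ c = B₁.repr u j := by
    intro j
    by_cases h : Transcendental k (B₁.repr u j)
    · obtain ⟨δ, hδ⟩ := h1 _ h
      exact absurd (by rw [← hrep, hu, map_zero, Finsupp.zero_apply]) hδ
    · have h2 : IsAlgebraic k (B₁.repr u j) := by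
        rw [Transcendental, not_not] at h
        exact h
      have h4 := IsAlgClosed.degree_eq_one_of_irreducible k (minpoly.irreducible h2.isIntegral)
      exact minpoly.mem_range_of_degree_eq_one k _ h4
  choose c hc using hc
  refine ⟨(B₁.repr u).support.sum fun j => c j • B j, ?_⟩
  rw [TensorProduct.tmul_sum]
  conv_lhs => rw [← B₁.linearCombination_repr u, Finsupp.linearCombination_apply, Finsupp.sum]
  refine Finset.sum_congr rfl fun j _ => ?_
  rw [Algebra.TensorProduct.basis_apply, ← hc j, algebraMap_smul, TensorProduct.tmul_smul]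

end tens

theorem ident {k S : Type} [Field k] [CommRing S] [Algebra k S] (D : Derivation k S S)
    {p : ℕ} (hp : 1 ≤ p) {f a b c0 c1 c2 c3 d0 d1 : S} (e0 : f * c0 = b ^ p)
    (e1 : f * c1 = a * b ^ (p - 1)) (e2 : f * c2 = a ^ (p - 1) * b) (e3 : f * c3 = a ^ p)
    (bez : d0 * c0 + d1 * c3 = 1) :
    a * D f = f * (d1 * (p * c3 * D a - a * D c3) + d0 * (p * c1 * D b - a * D c0)) ∧
    b * D f = f * (d1 * (p * c2 * D a - b * D c3) + d0 * (p * c0 * D b - b * D c0)) := by
  obtain ⟨p, rfl⟩ : ∃ p', p = p' + 1 := ⟨p - 1, by omega⟩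
  rw [Nat.add_sub_cancel] at e1 e2
  have E3 : f * D c3 + c3 * D f = ((p + 1 : ℕ) : S) * (a ^ p * D a) := by
    have h := congrArg D e3
    rw [D.leibniz, D.leibniz_pow, Nat.add_sub_cancel, nsmul_eq_mul] at h
    simpa only [smul_eq_mul] using h
  have E0 : f * D c0 + c0 * D f = ((p + 1 : ℕ) : S) * (b ^ p * D b) := by
    have h := congrArg D e0
    rw [D.leibniz, D.leibniz_pow, Nat.add_sub_cancel, nsmul_eq_mul] at h
    simpa only [smul_eq_mul] using h
  rw [pow_succ] at e0 e3
  constructor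
  · linear_combination (a * d1) * E3 + (a * d0) * E0 - a * D f * bez -
      ((p + 1 : ℕ) : S) * d1 * D a * e3 - ((p + 1 : ℕ) : S) * d0 * D b * e1
  · linear_combination (b * d1) * E3 + (b * d0) * E0 - b * D f * bez -
      ((p + 1 : ℕ) : S) * d0 * D b * e0 - ((p + 1 : ℕ) : S) * d1 * D a * e2


section places

variable {k K : Type} [Field k] [Field K] [Algebra k K]

theorem V_Rw {w : Place k K} {M : ℤ} {x : K} (hx : x ∈ V w M) : x ∈ Rw w := by
  intro v hv
  rcases hx with rfl | hx
  · rw [v.ord_zero]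
  · have := hx v
    rwa [Finsupp.single_eq_of_ne hv, neg_zero] at this

theorem V_ord {w : Place k K} {M : ℤ} {x : K} (hx : x ∈ V w M) (h0 : x ≠ 0) : -M ≤ w.ord x := by
  have := (hx.resolve_left h0) w
  rwa [Finsupp.single_eq_same] at this

theorem mem_V {w : Place k K} {M : ℤ} {x : K} (hx : x ∈ Rw w) (h : -M ≤ w.ord x) : x ∈ V w M := by
  right
  intro v
  by_cases hv : v = w
  · rw [hv, Finsupp.single_eq_same]
    exact h
  · rw [Finsupp.single_eq_of_ne hv, neg_zero]
    exact hx v hv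

/-- the functions with bounded pole, as a subspace of the regular functions -/
noncomputable def WR (w : Place k K) (M : ℤ) : Submodule k (Rw w) :=
  (V w M).comap (Rw w).val.toLinearMap

theorem mem_WR {w : Place k K} {M : ℤ} {x : Rw w} : x ∈ WR w M ↔ (x : K) ∈ V w M := Iff.rfl

theorem fin_WR [PerfectField k] [IsFF k K] (w : Place k K) (M : ℤ) :
    FiniteDimensional k (WR w M) := by
  let φ : WR w M →ₗ[k] V w M :=
    { toFun := fun x => ⟨((x : Rw w) : K), x.2⟩
      map_add' := fun _ _ => rfl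
      map_smul' := fun _ _ => rfl }
  refine Module.Finite.of_injective φ fun x y h => ?_
  exact Subtype.ext (Subtype.ext (congrArg (fun z : V w M => (z : K)) h))

/-- the argument with the orders -/
theorem zero_of {w : Place k K} {p : ℕ} {M N q : ℤ} {f a b c0 c1 c2 c3 d0 d1 : K}
    (h : IsDat w p M N f a b c0 c1 c2 c3 d0 d1) (hf : w.ord f = -q) {y u u' : K}
    (hy : y ∈ V w (q - 1)) (hu : u ∈ Rw w) (hu' : u' ∈ Rw w) (h1 : a * y = f * u)
    (h2 : b * y = f * u') : y = 0 := by
  by_contra hy0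
  have hf0 : f ≠ 0 := by
    rintro rfl
    have := h.e0
    rw [zero_mul] at this
    exact pow_ne_zero p h.b_ne this.symm
  have hyo := V_ord hy hy0
  have key : ∀ {c z : K}, c ≠ 0 → w.ord c = -N → z ∈ Rw w → c * y = f * z → z ∈ V w (N - 1) := by
    intro c z hc hco hz hcz
    have hz0 : z ≠ 0 := by
      rintro rfl
      rw [mul_zero] at hcz
      exact mul_ne_zero hc hy0 hcz
    refine mem_V hz ?_
    have h3 := congrArg w.ord hcz
    rw [w.ord_mul hc hy0, w.ord_mul hf0 hz0, hco, hf] at h3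
    omega
  have hu1 := key h.a_ne h.ord_a hu h1
  have hu2 := key h.b_ne h.ord_b hu' h2
  have h3 : u * b = u' * a := by
    apply mul_left_cancel₀ hf0
    calc f * (u * b) = (f * u) * b := by ring
      _ = (b * y) * a := by rw [← h1]; ring
      _ = f * (u' * a) := by rw [h2]; ring
  have h4 := h.lin u hu1 u' hu2 h3
  rw [h4, mul_zero] at h1
  exact mul_ne_zero h.a_ne hy0 h1

end places

theorem s_ultra (h1 : S_derx) (h2 : S_grm) : S_ultra := by
  intro k K _ _ _ _ _ _ w p hp M N q g hg0 hgV hgo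
  by_contra hinf
  have hinf' : Set.Infinite {f : K | Has w p M N f ∧ w.ord f = -q ∧ f - g ∈ V w (q - 1)} := hinf
  obtain ⟨f, hfinj, hfs⟩ : ∃ f : ℕ → K, Function.Injective f ∧
      ∀ n, Has w p M N (f n) ∧ w.ord (f n) = -q ∧ f n - g ∈ V w (q - 1) :=
    ⟨fun n => (hinf'.natEmbedding _ n : K),
      fun x y h => (hinf'.natEmbedding _).injective (Subtype.ext h),
      fun n => (hinf'.natEmbedding _ n).2⟩
  choose hH hfo hfg using hfs
  choose a b c0 c1 c2 c3 d0 d1 hD using hH
  obtain ⟨k₁, F, i1, i2, i3, 𝒰, μ, G, hμ, hU, hG, hconst, hA, hB⟩ := h2 k K (Rw w)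
  have hA' : ∀ (M' : ℤ) (x : ℕ → K), (∀ n, x n ∈ V w M') →
      ∃ u ∈ (WR w M').baseChange k₁, μ u = G x := by
    intro M' x hx
    have := fin_WR w M'
    exact hA (WR w M') this (fun n => ⟨x n, V_Rw (hx n)⟩) fun n => hx n
  have hC : ∀ u : k₁ ⊗[k] (Rw w), ∃ x : ℕ → K, (∀ n, x n ∈ Rw w) ∧ μ u = G x := by
    intro u
    obtain ⟨x, -, hx⟩ := hB ⊤ u (by rw [Submodule.baseChange_top]; trivial)
    exact ⟨fun n => x n, fun n => (x n).2, hx⟩
  obtain ⟨h, hh, hhG⟩ := hA' (q - 1) (fun n => f n - g) hfg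
  obtain ⟨a', -, haG⟩ := hA' M a fun n => (hD n).a_mem
  obtain ⟨b', -, hbG⟩ := hA' M b fun n => (hD n).b_mem
  obtain ⟨c0', -, hc0G⟩ := hA' M c0 fun n => (hD n).c0_mem
  obtain ⟨c1', -, hc1G⟩ := hA' M c1 fun n => (hD n).c1_mem
  obtain ⟨c2', -, hc2G⟩ := hA' M c2 fun n => (hD n).c2_mem
  obtain ⟨c3', -, hc3G⟩ := hA' M c3 fun n => (hD n).c3_mem
  obtain ⟨d0', -, hd0G⟩ := hA' M d0 fun n => (hD n).d0_mem
  obtain ⟨d1', -, hd1G⟩ := hA' M d1 fun n => (hD n).d1_mem
  let gg : Rw w := ⟨g, V_Rw hgV⟩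
  obtain ⟨f', hf'⟩ : ∃ f' : k₁ ⊗[k] (Rw w), f' = h + 1 ⊗ₜ[k] gg := ⟨_, rfl⟩
  have hfG : μ f' = G f := by
    rw [hf', map_add, hhG, hconst, ← map_add]
    congr 1
    funext n
    exact sub_add_cancel _ _
  have e0 : f' * c0' = b' ^ p := by
    apply hμ
    rw [map_mul, map_pow, hfG, hc0G, hbG, ← map_mul, ← map_pow]
    congr 1
    funext n
    exact (hD n).e0
  have e1 : f' * c1' = a' * b' ^ (p - 1) := by
    apply hμ
    rw [map_mul, map_mul, map_pow, hfG, hc1G, haG, hbG, ← map_mul, ← map_pow, ← map_mul]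
    congr 1
    funext n
    exact (hD n).e1
  have e2 : f' * c2' = a' ^ (p - 1) * b' := by
    apply hμ
    rw [map_mul, map_mul, map_pow, hfG, hc2G, haG, hbG, ← map_mul, ← map_pow, ← map_mul]
    congr 1
    funext n
    exact (hD n).e2
  have e3 : f' * c3' = a' ^ p := by
    apply hμ
    rw [map_mul, map_pow, hfG, hc3G, haG, ← map_mul, ← map_pow]
    congr 1
    funext n
    exact (hD n).e3
  have bez : d0' * c0' + d1' * c3' = 1 := by
    apply hμ
    rw [map_add, map_mul, map_mul, map_one, hd0G, hc0G, hd1G, hc3G, ← map_mul, ← map_mul,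
      ← map_add, ← map_one G]
    congr 1
    funext n
    exact (hD n).bez
  have hDD : ∀ δ : Derivation k k₁ k₁, DD δ f' = 0 := by
    intro δ
    obtain ⟨I1, I2⟩ := ident (DD δ) (by omega : 1 ≤ p) e0 e1 e2 e3 bez
    have h3 : DD δ f' ∈ (WR w (q - 1)).baseChange k₁ := by
      rw [hf', map_add, DD_const, add_zero]
      exact DD_mem δ _ _ hh
    obtain ⟨y, hy, hyG⟩ := hB (WR w (q - 1)) _ h3
    obtain ⟨u, hu, huG⟩ := hC (d1' * (p * c3' * DD δ a' - a' * DD δ c3') +
      d0' * (p * c1' * DD δ b' - a' * DD δ c0'))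
    obtain ⟨u', hu', huG'⟩ := hC (d1' * (p * c2' * DD δ a' - b' * DD δ c3') +
      d0' * (p * c0' * DD δ b' - b' * DD δ c0'))
    have J1 := congrArg μ I1
    have J2 := congrArg μ I2
    rw [map_mul, map_mul, haG, hfG, hyG, huG, ← map_mul, ← map_mul, hG] at J1
    rw [map_mul, map_mul, hbG, hfG, hyG, huG', ← map_mul, ← map_mul, hG] at J2
    have h4 : μ (DD δ f') = μ 0 := by
      rw [hyG, map_zero, ← map_zero G, hG]
      filter_upwards [J1, J2] with n hn1 hn2
      exact zero_of (hD n) (hfo n) (mem_WR.1 (hy n)) (hu n) (hu' n) hn1 hn2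
    exact hμ h4
  obtain ⟨r, hr⟩ := const_of_DD (fun x hx => h1 k k₁ x hx) f' hDD
  have h5 : ∀ᶠ n in (𝒰 : Filter ℕ), f n = r := by
    rw [← hG f fun _ => (r : K), ← hfG, hr, hconst]
  obtain ⟨n₀, hn₀⟩ := h5.exists
  apply hU n₀
  have h6 : {n₀} = {n | f n = r} := by
    ext n
    constructor
    · rintro rfl
      exact hn₀
    · intro hn
      exact hfinj (hn.trans hn₀.symm)
  rw [h6]
  exact h5

end Pool.Agent.NH7.FT.V2
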